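import Pool.Agent.Lib.MP_e0d433_co.F.Bound

/-!
# MP_e0d433_co, F: run systems on `m` letters

A run system on the letters `Fin m` gives a rule on `Fin n`, `n ≥ m + 2`, in which the letters
`≥ m` are passive.
-/

set_option autoImplicit false

namespace Pool.Agent.Lib.MP_e0d433_co

open Finset

/-- Rotate the word such that the letter `0` is the first one. -/
def anch {m : ℕ} [NeZero m] (u : List (Fin m)) : List (Fin m) := u.rotate (u.idxOf 0)

theorem anch_cons {m : ℕ} [NeZero m] (v : List (Fin m)) : anch (0 :: v) = 0 :: v := by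
  simp [anch]

theorem anch_rotate {m : ℕ} [NeZero m] {u : List (Fin m)} (hn : u.Nodup) (h0 : (0 : Fin m) ∈ u) :
    anch (u.rotate 1) = anch u := by
  obtain ⟨s, t, rfl⟩ := List.append_of_mem h0
  have hs : (0 : Fin m) ∉ s := by
    intro h
    have := List.disjoint_of_nodup_append hn
    exact this h (by simp)
  cases s with
  | nil =>
    rw [List.nil_append, anch_cons, List.rotate_cons_succ, List.rotate_zero]
    have ht : (0 : Fin m) ∉ t := (List.nodup_cons.1 hn).1
    unfold anch
    have : (t ++ [0]).idxOf (0 : Fin m) = t.length := by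
      rw [List.idxOf_append_of_notMem ht]
      simp
    rw [this, List.rotate_append_length_eq]
    rfl
  | cons a s =>
    have ha : a ≠ 0 := fun h => hs (by simp [h])
    have hs' : (0 : Fin m) ∉ s := fun h => hs (List.mem_cons_of_mem _ h)
    have e1 : (a :: s ++ 0 :: t).rotate 1 = s ++ 0 :: (t ++ [a]) := by
      rw [List.cons_append, List.rotate_cons_succ, List.rotate_zero]
      simp
    rw [e1]
    unfold anch
    have i1 : (s ++ 0 :: (t ++ [a])).idxOf (0 : Fin m) = s.length := by
      rw [List.idxOf_append_of_notMem hs']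
      simp
    have i2 : (a :: s ++ 0 :: t).idxOf (0 : Fin m) = (a :: s).length := by
      rw [List.idxOf_append_of_notMem hs]
      simp
    rw [i1, i2, List.rotate_append_length_eq, List.rotate_append_length_eq]
    simp

theorem anch_isRotated {m : ℕ} [NeZero m] {u v : List (Fin m)} (hn : u.Nodup)
    (h0 : (0 : Fin m) ∈ u) (h : u ~r v) : anch v = anch u := by
  obtain ⟨k, rfl⟩ := h
  induction k with
  | zero => simp
  | succ k ih =>
    rw [← List.rotate_rotate, anch_rotate (List.nodup_rotate.2 hn) (List.mem_rotate.2 h0), ih]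

/-- A run system on `m` letters. -/
structure Base (m : ℕ) [NeZero m] where
  /-- the mover and its direction, for words starting with `0` -/
  g : List (Fin m) → Fin m × Bool
  /-- the distance to the marked words -/
  rk : List (Fin m) → ℕ
  /-- the marked words `b :: c :: s` with the mover `b` going right -/
  U : List (Fin m × Fin m × List (Fin m))
  two_le : 2 ≤ m
  switch : ∀ b c s, (b :: c :: s).Nodup → (b :: c :: s).length = m →
    (g (anch (b :: c :: s)) = (b, true) ∨ g (anch (b :: c :: s)) = (c, false)) →
    (g (anch (c :: b :: s)) = (b, true) ∨ g (anch (c :: b :: s)) = (c, false))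
  desc : ∀ b c s, (b :: c :: s).Nodup → (b :: c :: s).length = m →
    (g (anch (b :: c :: s)) = (b, true) ∨ g (anch (b :: c :: s)) = (c, false)) →
    ((b, c, s) ∈ U ∧ g (anch (b :: c :: s)) = (b, true)) ∨
      rk (anch (c :: b :: s)) < rk (anch (b :: c :: s))

/-- The restriction of a word to the letters `< m`. -/
def pr (m : ℕ) {n : ℕ} (C : List (Fin n)) : List (Fin m) :=
  C.filterMap (fun a => if h : a.val < m then some ⟨a.val, h⟩ else none)

section pr

variable {m n : ℕ}

theorem pr_append (C D : List (Fin n)) : pr m (C ++ D) = pr m C ++ pr m D := by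
  simp [pr]

theorem pr_cons_of_lt {a : Fin n} (h : a.val < m) (C : List (Fin n)) :
    pr m (a :: C) = ⟨a.val, h⟩ :: pr m C := by
  simp [pr, h]

theorem pr_cons_of_not {a : Fin n} (h : ¬ a.val < m) (C : List (Fin n)) :
    pr m (a :: C) = pr m C := by
  simp [pr, h]

theorem mem_pr {C : List (Fin n)} {i : Fin m} : i ∈ pr m C ↔ ∃ a ∈ C, a.val = i.val := by
  unfold pr
  rw [List.mem_filterMap]
  constructor
  · rintro ⟨a, ha, h⟩
    refine ⟨a, ha, ?_⟩
    split_ifs at h with h'
    rw [Option.some.injEq] at h
    rw [← h]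
  · rintro ⟨a, ha, h⟩
    refine ⟨a, ha, ?_⟩
    have : a.val < m := by rw [h]; exact i.isLt
    rw [dif_pos this]
    congr 1
    exact Fin.ext h

theorem pr_nodup {C : List (Fin n)} (h : C.Nodup) : (pr m C).Nodup := by
  unfold pr
  refine h.filterMap ?_
  intro a a' b hb hb'
  rw [Option.mem_def] at hb hb'
  split_ifs at hb with h1
  split_ifs at hb' with h2
  rw [Option.some.injEq] at hb hb'
  have : a.val = a'.val := by
    have := congrArg Fin.val (hb.trans hb'.symm)
    exact this
  exact Fin.ext this

theorem pr_filter {C : List (Fin n)} {A : Finset (Fin n)} (hA : ∀ a : Fin n, a.val < m → a ∈ A) :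
    pr m (C.filter (· ∈ A)) = pr m C := by
  induction C with
  | nil => rfl
  | cons a C ih =>
    by_cases ha : a ∈ A
    · rw [List.filter_cons_of_pos (by simpa using ha)]
      by_cases h : a.val < m
      · rw [pr_cons_of_lt h, pr_cons_of_lt h, ih]
      · rw [pr_cons_of_not h, pr_cons_of_not h, ih]
    · have h : ¬ a.val < m := fun h => ha (hA a h)
      rw [List.filter_cons_of_neg (by simpa using ha), pr_cons_of_not h, ih]

theorem pr_isRotated {C D : List (Fin n)} (h : C ~r D) : pr m C ~r pr m D := by
  obtain ⟨k, rfl⟩ := h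
  rw [List.rotate_eq_drop_append_take_mod, pr_append]
  have : pr m C = pr m (C.take (k % C.length)) ++ pr m (C.drop (k % C.length)) := by
    rw [← pr_append, List.take_append_drop]
  rw [this]
  exact ⟨(pr m (C.take (k % C.length))).length, List.rotate_append_length_eq _ _⟩

theorem pr_length {C : List (Fin n)} (hn : C.Nodup) (hA : ∀ i : Fin m, ∃ a ∈ C, a.val = i.val) :
    (pr m C).length = m := by
  have h1 : (pr m C).toFinset = univ := by
    ext i
    simp only [List.mem_toFinset, mem_univ, iff_true]
    exact mem_pr.2 (hA i)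
  have h2 := List.toFinset_card_of_nodup (pr_nodup (m := m) hn)
  rw [h1, card_univ, Fintype.card_fin] at h2
  exact h2.symm

end pr

namespace Base

variable {m n : ℕ} [NeZero m] (B : Base m)

/-- The active letters. -/
def act (m n : ℕ) : Finset (Fin n) := univ.filter (fun a => a.val < m)

theorem mem_act {a : Fin n} : a ∈ act m n ↔ a.val < m := by simp [act]

/-- The rule on `Fin n`. -/
def inf (hmn : m + 2 ≤ n) (C : List (Fin n)) : Fin n × Bool :=
  (Fin.castLE (by omega) (B.g (anch (pr m C))).1, (B.g (anch (pr m C))).2)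

theorem inf_eq {hmn : m + 2 ≤ n} {C : List (Fin n)} {b : Fin n} (hb : b.val < m) {d : Bool} :
    B.inf hmn C = (b, d) ↔ B.g (anch (pr m C)) = (⟨b.val, hb⟩, d) := by
  unfold inf
  rw [Prod.ext_iff, Prod.ext_iff]
  simp only
  constructor
  · rintro ⟨h1, h2⟩
    refine ⟨?_, h2⟩
    apply Fin.ext
    have := congrArg Fin.val h1
    simpa using this
  · rintro ⟨h1, h2⟩
    refine ⟨?_, h2⟩
    apply Fin.ext
    have := congrArg Fin.val h1
    simpa using this

theorem inf_lt {hmn : m + 2 ≤ n} {C : List (Fin n)} {b : Fin n} {d : Bool}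
    (h : B.inf hmn C = (b, d)) : b.val < m := by
  unfold inf at h
  have := congrArg (fun p : Fin n × Bool => p.1.val) h
  simp only [Fin.val_castLE] at this
  rw [← this]
  exact (B.g (anch (pr m C))).1.isLt

theorem exists_of_act {C : List (Fin n)} (hmn : m + 2 ≤ n) (hA : ∀ a ∈ act m n, a ∈ C)
    (i : Fin m) : ∃ a ∈ C, a.val = i.val :=
  ⟨⟨i.val, by omega⟩, hA _ (mem_act.2 i.isLt), rfl⟩

theorem zero_mem {C : List (Fin n)} (hmn : m + 2 ≤ n) (hA : ∀ a ∈ act m n, a ∈ C) :
    (0 : Fin m) ∈ pr m C := mem_pr.2 (exists_of_act hmn hA 0)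

theorem inf_isRotated {hmn : m + 2 ≤ n} {C D : List (Fin n)} (hn : C.Nodup)
    (hA : ∀ a ∈ act m n, a ∈ C) (h : C ~r D) : B.inf hmn D = B.inf hmn C := by
  unfold inf
  rw [anch_isRotated (pr_nodup hn) (zero_mem hmn hA) (pr_isRotated h)]

/-- The rule on `Fin n`. -/
def rule (hmn : m + 2 ≤ n) : Rule (Fin n) where
  x := ⟨n - 1, by omega⟩
  w := ⟨n - 2, by omega⟩
  A := act m n
  info := B.inf hmn
  x_notMem := by rw [mem_act]; simp only; omega
  w_notMem := by rw [mem_act]; simp only; omega
  x_ne_w := by
    intro h
    have := congrArg Fin.val h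
    simp only at this
    omega
  two_le := by
    have h : ({⟨0, by have := B.two_le; omega⟩, ⟨1, by have := B.two_le; omega⟩} :
        Finset (Fin n)) ⊆ act m n := by
      intro a ha
      have := B.two_le
      simp only [mem_insert, mem_singleton] at ha
      rw [mem_act]
      rcases ha with rfl | rfl
      · simp only; omega
      · simp only; omega
    have h2 := card_le_card h
    rw [card_pair] at h2
    · exact h2
    · intro h
      have := congrArg Fin.val h
      simp at this
  filt := by
    intro C
    unfold inf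
    rw [pr_filter (fun a ha => mem_act.2 ha)]
  rot := fun C hn hA => B.inf_isRotated hn hA ⟨1, rfl⟩
  mem := by
    intro C _ _
    rw [mem_act]
    exact (B.g (anch (pr m C))).1.isLt
  switch := by
    intro b c l hn hA h
    have hlen := pr_length (m := m) hn (exists_of_act hmn hA)
    have hn' : (c :: b :: l).Nodup := (List.Perm.swap b c l).nodup_iff.2 hn
    have hnd := pr_nodup (m := m) hn
    by_cases hb : b.val < m
    · by_cases hc : c.val < m
      · rw [B.inf_eq hb, B.inf_eq hc] at h ⊢
        rw [pr_cons_of_lt hb, pr_cons_of_lt hc] at h hlen hnd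
        rw [pr_cons_of_lt hc, pr_cons_of_lt hb]
        exact B.switch _ _ _ hnd hlen h
      · have e : pr m (c :: b :: l) = pr m (b :: c :: l) := by
          rw [pr_cons_of_not hc, pr_cons_of_lt hb, pr_cons_of_lt hb, pr_cons_of_not hc]
        rcases h with h | h
        · left
          rw [B.inf_eq hb] at h ⊢
          rw [e]; exact h
        · exact absurd (B.inf_lt h) hc
    · rcases h with h | h
      · exact absurd (B.inf_lt h) hb
      · have hc := B.inf_lt h
        have e : pr m (c :: b :: l) = pr m (b :: c :: l) := by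
          rw [pr_cons_of_not hb, pr_cons_of_lt hc, pr_cons_of_lt hc, pr_cons_of_not hb]
        right
        rw [B.inf_eq hc] at h ⊢
        rw [e]; exact h

end Base

end Pool.Agent.Lib.MP_e0d433_co
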