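import Pool.Agent.Lib.MP_e0d433_co.F.Defs
import Pool.Agent.Lib.MP_e0d433_co.Count

/-!
# MP_e0d433_co, F: the length of the cycles of a rule

Adapted from `SysCount.lean`; the cyclic words `C` are anchored at the passive letter `w`.
-/

set_option autoImplicit false

namespace Pool.Agent.Lib.MP_e0d433_co

open Finset

namespace Rule

variable {α : Type*} [DecidableEq α] [Fintype α] (S : Rule α)

omit [Fintype α] in
theorem CountF_rotate_mem {T : Finset α} {C : List α} (h : C ∈ perms T) (k : ℕ) :
    C.rotate k ∈ perms T := perm_mem_perms h (List.rotate_perm C k)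

omit [DecidableEq α] [Fintype α] in
/-- Rotations of a word without repetition are determined by the first letter. -/
theorem CountF_eq_of_isRotated {C D : List α} (hC : C.Nodup) (h : C ~r D)
    (hh : C.head? = D.head?) : C = D := by
  obtain ⟨k, hk, rfl⟩ := List.isRotated_iff_mod.1 h
  rcases Nat.eq_zero_or_pos C.length with h0 | h0
  · rw [List.length_eq_zero_iff] at h0
    subst h0
    simp
  · rcases Nat.lt_or_ge k C.length with hlt | hge
    · rw [List.head?_rotate hlt, List.head?_eq_getElem?, List.getElem?_eq_getElem h0,
        List.getElem?_eq_getElem hlt, Option.some.injEq, hC.getElem_inj_iff] at hh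
      subst hh
      simp
    · have : k = C.length := by omega
      subst this
      simp

omit [Fintype α] in
/-- Re-anchoring. -/
theorem CountF_anchor (T : Finset α) (q₁ q₂ : List α → α) (F : List α → Prop)
    [DecidablePred F] (h1 : ∀ C ∈ perms T, ∀ k, q₁ (C.rotate k) = q₁ C)
    (h2 : ∀ C ∈ perms T, ∀ k, q₂ (C.rotate k) = q₂ C)
    (hF : ∀ C ∈ perms T, ∀ k, F C → F (C.rotate k)) (hm : ∀ C ∈ perms T, q₂ C ∈ T) :
    ((perms T).filter (fun C => C.head? = some (q₁ C) ∧ F C)).card ≤
      ((perms T).filter (fun C => C.head? = some (q₂ C) ∧ F C)).card := by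
  apply Finset.card_le_card_of_injOn (fun C => C.rotate (C.idxOf (q₂ C)))
  · intro C hC
    rw [Finset.mem_coe, Finset.mem_filter] at hC ⊢
    obtain ⟨hC, hq, hf⟩ := hC
    have hmem : q₂ C ∈ C := (mem_iff_of_mem_perms hC _).2 (hm C hC)
    refine ⟨CountF_rotate_mem hC _, ?_, hF C hC _ hf⟩
    show (C.rotate (C.idxOf (q₂ C))).head? = some (q₂ (C.rotate (C.idxOf (q₂ C))))
    rw [h2 C hC, List.head?_rotate (List.idxOf_lt_length_iff.2 hmem), List.getElem?_idxOf hmem]
  · intro C hC D hD hCD
    rw [Finset.mem_coe, Finset.mem_filter] at hC hD
    obtain ⟨hC, hq, hf⟩ := hC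
    obtain ⟨hD, hq', hf'⟩ := hD
    have hCD' : C.rotate (C.idxOf (q₂ C)) = D.rotate (D.idxOf (q₂ D)) := hCD
    have hrot : C ~r D := by
      have r1 : C ~r C.rotate (C.idxOf (q₂ C)) := ⟨_, rfl⟩
      have r2 : D ~r D.rotate (D.idxOf (q₂ D)) := ⟨_, rfl⟩
      rw [hCD'] at r1
      exact r1.trans r2.symm
    have hqq : q₁ C = q₁ D := by
      obtain ⟨k, rfl⟩ := hrot
      exact (h1 C hC k).symm
    exact CountF_eq_of_isRotated (nodup_of_mem_perms hC) hrot (by rw [hq, hq', hqq])

theorem CountF_A_mem {C : List α} (hC : C ∈ perms (univ \ {S.x} : Finset α)) :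
    ∀ a ∈ S.A, a ∈ C := by
  intro a ha
  rw [mem_iff_of_mem_perms hC]
  simp only [mem_sdiff, mem_univ, mem_singleton, true_and]
  rintro rfl
  exact S.x_notMem ha

theorem CountF_info_rotate {C : List α} (hC : C ∈ perms (univ \ {S.x} : Finset α)) (k : ℕ) :
    S.info (C.rotate k) = S.info C := by
  induction k with
  | zero => rw [List.rotate_zero]
  | succ k ih =>
    have h := CountF_rotate_mem hC k
    rw [← ih, ← List.rotate_rotate]
    exact S.rot _ (nodup_of_mem_perms h) (S.CountF_A_mem h)

/-- Number of left going cyclic words without `x`, anchored at `w`. -/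
def cntW : ℕ :=
  ((perms (univ \ {S.x, S.w} : Finset α)).filter (fun l => (S.info (S.w :: l)).2 = false)).card

theorem CountF_mem_T {C : List α} (hC : C ∈ perms (univ \ {S.x} : Finset α)) :
    (S.info C).1 ∈ (univ \ {S.x} : Finset α) := by
  have h := S.mem C (nodup_of_mem_perms hC) (S.CountF_A_mem hC)
  simp only [mem_sdiff, mem_univ, mem_singleton, true_and]
  intro he
  rw [he] at h
  exact S.x_notMem h

theorem CountF_length {C : List α} (hC : C ∈ perms (univ \ {S.x} : Finset α)) :
    C.length = Fintype.card α - 1 := by
  rw [length_of_mem_perms hC, Finset.card_sdiff_of_subset (Finset.subset_univ _),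
    Finset.card_singleton, Finset.card_univ]

theorem CountF_three_le {C : List α} (hC : C ∈ perms (univ \ {S.x} : Finset α)) :
    3 ≤ C.length := by
  have hsub : insert S.w S.A ⊆ C.toFinset := by
    intro a ha
    rw [List.mem_toFinset, mem_iff_of_mem_perms hC]
    rw [mem_insert] at ha
    simp only [mem_sdiff, mem_univ, mem_singleton, true_and]
    rcases ha with rfl | ha
    · exact S.x_ne_w.symm
    · rintro rfl
      exact S.x_notMem ha
  have hcard : (insert S.w S.A).card = S.A.card + 1 := Finset.card_insert_of_notMem S.w_notMem
  have h2 := S.two_le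
  have h3 := Finset.card_le_card hsub
  have h4 := List.toFinset_card_le C
  omega

/-- The words starting with `w`. -/
theorem CountF_head_w (F : List α → Prop) [DecidablePred F] :
    ((perms (univ \ {S.x} : Finset α)).filter (fun C => C.head? = some S.w ∧ F C)).card =
      ((perms (univ \ {S.x, S.w} : Finset α)).filter (fun l => F (S.w :: l))).card := by
  have hperm : ∀ l : List α, S.w :: l ∈ perms (univ \ {S.x} : Finset α) ↔
      l ∈ perms (univ \ {S.x, S.w} : Finset α) := by
    intro l
    rw [mem_perms, mem_perms, List.nodup_cons]
    constructor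
    · rintro ⟨⟨hz, hn⟩, ht⟩
      refine ⟨hn, ?_⟩
      ext a
      have ha := Finset.ext_iff.1 ht a
      simp only [List.toFinset_cons, mem_insert, List.mem_toFinset, mem_sdiff, mem_univ,
        mem_singleton, true_and, not_or] at ha ⊢
      constructor
      · intro hal
        exact ⟨ha.1 (Or.inr hal), fun e => hz (e ▸ hal)⟩
      · rintro ⟨h1, h2⟩
        rcases ha.2 h1 with h | h
        · exact absurd h h2
        · exact h
    · rintro ⟨hn, ht⟩
      refine ⟨⟨?_, hn⟩, ?_⟩
      · intro hz
        rw [← List.mem_toFinset, ht] at hz
        simp at hz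
      · rw [List.toFinset_cons, ht]
        ext a
        simp only [mem_insert, mem_sdiff, mem_univ, mem_singleton, true_and, not_or]
        constructor
        · rintro (rfl | h)
          · exact S.x_ne_w.symm
          · exact h.1
        · intro h
          by_cases hz : a = S.w
          · exact Or.inl hz
          · exact Or.inr ⟨h, hz⟩
  symm
  apply Finset.card_bij (fun l _ => S.w :: l)
  · intro l hl
    rw [Finset.mem_filter] at hl ⊢
    exact ⟨(hperm l).2 hl.1, rfl, hl.2⟩
  · intro l _ l' _ h
    exact (List.cons.inj h).2
  · intro C hC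
    rw [Finset.mem_filter] at hC
    obtain ⟨hC, hh, hF⟩ := hC
    cases C with
    | nil => simp at hh
    | cons a l =>
      rw [List.head?_cons, Option.some.injEq] at hh
      subst hh
      exact ⟨l, Finset.mem_filter.2 ⟨(hperm l).1 hC, hF⟩, rfl⟩

open scoped Classical in
/-- The number of words with the exit `Out`. -/
theorem CountF_card_out :
    ((perms (univ \ {S.x} : Finset α)).filter (fun C => S.Out C)).card ≤
      (Fintype.card α - 2).factorial := by
  set T : Finset α := univ \ {S.x} with hT
  have hq : ∀ C ∈ perms T, ∀ k, (S.info (C.rotate k)).1 = (S.info C).1 := fun C hC k => by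
    rw [S.CountF_info_rotate hC k]
  have hR : ((perms T).filter (fun C => S.Out C)).card ≤
      ((perms T).filter (fun C => C.head? = some (S.info C).1 ∧ (S.info C).2 = true)).card +
      ((perms T).filter (fun C => C.head? = some (S.info C).1 ∧ (S.info C).2 = false)).card := by
    have h1 : ((perms T).filter (fun C => S.Out C)) ⊆
        ((perms T).filter (fun C => C.head? = some (S.info C).1 ∧ (S.info C).2 = true)) ∪
        ((perms T).filter (fun C => (C.rotate 1).head? = some (S.info C).1 ∧
          (S.info C).2 = false)) := by
      intro C hC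
      rw [Finset.mem_filter] at hC
      obtain ⟨hC, b, c, l, rfl, h | h⟩ := hC
      · refine Finset.mem_union_left _ (Finset.mem_filter.2 ⟨hC, ?_⟩)
        rw [h]
        exact ⟨rfl, rfl⟩
      · refine Finset.mem_union_right _ (Finset.mem_filter.2 ⟨hC, ?_⟩)
        rw [h]
        refine ⟨?_, rfl⟩
        rw [List.rotate_cons_succ, List.rotate_zero]
        rfl
    refine (Finset.card_le_card h1).trans ((Finset.card_union_le _ _).trans ?_)
    refine Nat.add_le_add_left ?_ _
    apply Finset.card_le_card_of_injOn (fun C => C.rotate 1)
    · intro C hC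
      rw [Finset.mem_coe, Finset.mem_filter] at hC ⊢
      refine ⟨CountF_rotate_mem hC.1 1, ?_⟩
      rw [S.CountF_info_rotate hC.1 1]
      exact hC.2
    · intro C _ D _ h
      exact List.rotate_injective 1 h
  refine hR.trans ?_
  have h2 : ((perms T).filter (fun C => C.head? = some (S.info C).1 ∧ (S.info C).2 = true)).card +
      ((perms T).filter (fun C => C.head? = some (S.info C).1 ∧ (S.info C).2 = false)).card =
      ((perms T).filter (fun C => C.head? = some (S.info C).1 ∧ True)).card := by
    rw [← Finset.card_union_of_disjoint]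
    · congr 1
      ext C
      simp only [mem_union, mem_filter, and_true]
      constructor
      · rintro (h | h)
        · exact ⟨h.1, h.2.1⟩
        · exact ⟨h.1, h.2.1⟩
      · rintro ⟨h, h'⟩
        cases hb : (S.info C).2
        · exact Or.inr ⟨h, h', rfl⟩
        · exact Or.inl ⟨h, h', rfl⟩
    · rw [Finset.disjoint_left]
      intro C h h'
      rw [mem_filter] at h h'
      rw [h.2.2] at h'
      exact absurd h'.2.2 (by simp)
  rw [h2]
  refine (CountF_anchor T (fun C => (S.info C).1) (fun _ => S.w) (fun _ => True) hq
    (fun _ _ _ => rfl) (fun _ _ _ _ => trivial) ?_).trans ?_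
  · intro C _
    simpa [hT] using S.x_ne_w.symm
  · rw [hT, S.CountF_head_w (fun _ => True), Finset.filter_true, card_perms,
      Finset.card_sdiff_of_subset (Finset.subset_univ _), Finset.card_univ,
      Finset.card_pair S.x_ne_w]

open scoped Classical in
/-- The number of wasted words. -/
theorem CountF_card_wasted :
    2 * S.cntW ≤
    ((perms (univ \ {S.x} : Finset α)).filter (fun C => S.Wasted C ∧ ¬ S.Out C)).card := by
  set T : Finset α := univ \ {S.x} with hT
  have hq : ∀ C ∈ perms T, ∀ k, (S.info (C.rotate k)).1 = (S.info C).1 := fun C hC k => by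
    rw [S.CountF_info_rotate hC k]
  have ha : S.cntW ≤
      ((perms T).filter (fun C => C.head? = some (S.info C).1 ∧ (S.info C).2 = false)).card := by
    rw [cntW, ← S.CountF_head_w (fun C => (S.info C).2 = false), ← hT]
    exact CountF_anchor T (fun _ => S.w) (fun C => (S.info C).1) (fun C => (S.info C).2 = false)
      (fun _ _ _ => rfl) hq (fun C hC k h => by rw [S.CountF_info_rotate hC k]; exact h)
      (fun C hC => S.CountF_mem_T hC)
  have hb : ((perms T).filter
      (fun C => C.head? = some (S.info C).1 ∧ (S.info C).2 = false)).card ≤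
      ((perms T).filter (fun C => C.getLast? = some (S.info C).1 ∧ (S.info C).2 = false)).card := by
    apply Finset.card_le_card_of_injOn (fun C => C.rotate 1)
    · intro C hC
      rw [Finset.mem_coe, Finset.mem_filter] at hC ⊢
      refine ⟨CountF_rotate_mem hC.1 1, ?_⟩
      rw [S.CountF_info_rotate hC.1 1]
      refine ⟨?_, hC.2.2⟩
      cases C with
      | nil => simp at hC
      | cons a l =>
        show ((a :: l).rotate 1).getLast? = some (S.info (a :: l)).1
        rw [List.rotate_cons_succ, List.rotate_zero, List.getLast?_concat]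
        exact hC.2.1
    · intro C _ D _ h
      exact List.rotate_injective 1 h
  have hdis : Disjoint
      ((perms T).filter (fun C => C.head? = some (S.info C).1 ∧ (S.info C).2 = false))
      ((perms T).filter
        (fun C => C.getLast? = some (S.info C).1 ∧ (S.info C).2 = false)) := by
    rw [Finset.disjoint_left]
    intro C h h'
    rw [mem_filter] at h h'
    have hl := S.CountF_three_le h.1
    have hn := nodup_of_mem_perms h.1
    have he := h.2.1.trans h'.2.1.symm
    rw [List.head?_eq_getElem?, List.getLast?_eq_getElem?,
      List.getElem?_eq_getElem (by omega), List.getElem?_eq_getElem (by omega),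
      Option.some.injEq, hn.getElem_inj_iff] at he
    omega
  have hsub : ((perms T).filter
        (fun C => C.head? = some (S.info C).1 ∧ (S.info C).2 = false)) ∪
      ((perms T).filter
        (fun C => C.getLast? = some (S.info C).1 ∧ (S.info C).2 = false)) ⊆
      (perms T).filter (fun C => S.Wasted C ∧ ¬ S.Out C) := by
    intro C hC
    rw [mem_union, mem_filter, mem_filter] at hC
    rw [mem_filter]
    rcases hC with ⟨hC, h1, h2⟩ | ⟨hC, h1, h2⟩
    · refine ⟨hC, ⟨h2, Or.inl h1⟩, ?_⟩
      rintro ⟨b, c, l, rfl, h | h⟩
      · rw [h] at h2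
        exact absurd h2 (by simp)
      · rw [h, List.head?_cons, Option.some.injEq] at h1
        have h1' : b = c := h1
        subst h1'
        have := nodup_of_mem_perms hC
        simp at this
    · refine ⟨hC, ⟨h2, Or.inr h1⟩, ?_⟩
      rintro ⟨b, c, l, rfl, h | h⟩
      · rw [h] at h2
        exact absurd h2 (by simp)
      · have hl := S.CountF_three_le hC
        have hn := nodup_of_mem_perms hC
        have h3 : (b :: c :: l)[1]? = some c := rfl
        have h4 : (b :: c :: l).getLast? = some c := by rw [h1, h]
        have he := h3.trans h4.symm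
        rw [List.getLast?_eq_getElem?, List.getElem?_eq_getElem (by omega),
          List.getElem?_eq_getElem (by omega), Option.some.injEq, hn.getElem_inj_iff] at he
        omega
  have hc := Finset.card_le_card hsub
  rw [Finset.card_union_of_disjoint hdis] at hc
  omega

theorem sum_md :
    ∑ P ∈ perms (univ : Finset α), S.md P + 2 * S.cntW ≤
      (Fintype.card α).factorial + (Fintype.card α - 1).factorial +
        (Fintype.card α - 2).factorial := by
  classical
  set T : Finset α := univ \ {S.x} with hT
  have hmd1 : ∀ P, 1 ≤ S.md P := by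
    intro P
    unfold md mode
    split_ifs <;> omega
  have hmode1 : ∀ C, 1 ≤ S.mode C := by
    intro C
    unfold mode
    split_ifs <;> omega
  have h1 : ∑ P ∈ perms (univ : Finset α), S.md P =
      (Fintype.card α).factorial + ∑ P ∈ perms (univ : Finset α), (S.md P - 1) := by
    have : ∀ P ∈ perms (univ : Finset α), S.md P = 1 + (S.md P - 1) := by
      intro P _
      have := hmd1 P
      omega
    rw [Finset.sum_congr rfl this, Finset.sum_add_distrib, Finset.sum_const, smul_eq_mul, mul_one,
      card_perms, Finset.card_univ]
  have hinj : Set.InjOn (fun C : List α => S.x :: C) (perms T : Set (List α)) := by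
    intro C _ D _ h
    exact (List.cons.inj h).2
  have h2 : ∑ P ∈ perms (univ : Finset α), (S.md P - 1) = ∑ C ∈ perms T, (S.mode C - 1) := by
    have hsum : ∑ C ∈ perms T, (S.mode C - 1) =
        ∑ P ∈ (perms T).image (fun C : List α => S.x :: C), (S.md P - 1) := by
      rw [Finset.sum_image hinj]
      refine Finset.sum_congr rfl fun C _ => ?_
      simp [md]
    rw [hsum]
    symm
    apply Finset.sum_subset
    · intro P hP
      rw [Finset.mem_image] at hP
      obtain ⟨C, hC, rfl⟩ := hP
      rw [mem_perms] at hC ⊢
      refine ⟨?_, ?_⟩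
      · rw [List.nodup_cons]
        refine ⟨?_, hC.1⟩
        intro hx
        rw [← List.mem_toFinset, hC.2] at hx
        simp [hT] at hx
      · rw [List.toFinset_cons, hC.2, hT]
        ext a
        simp only [mem_insert, mem_sdiff, mem_univ, mem_singleton, true_and, iff_true]
        exact em _
    · intro P hP hP'
      have : P.head? ≠ some S.x := by
        intro hh
        apply hP'
        cases P with
        | nil => simp at hh
        | cons a C =>
          rw [List.head?_cons, Option.some.injEq] at hh
          subst hh
          refine Finset.mem_image.2 ⟨C, ?_, rfl⟩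
          rw [mem_perms] at hP ⊢
          rw [List.nodup_cons] at hP
          refine ⟨hP.1.2, ?_⟩
          ext a
          have ha := Finset.ext_iff.1 hP.2 a
          simp only [List.toFinset_cons, mem_insert, List.mem_toFinset, mem_univ, iff_true] at ha
          simp only [hT, List.mem_toFinset, mem_sdiff, mem_univ, mem_singleton, true_and]
          constructor
          · intro h e
            exact hP.1.1 (e ▸ h)
          · intro h
            rcases ha with h' | h'
            · exact absurd h' h
            · exact h'
      rw [md, if_neg this, Nat.sub_self]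
  have h3 : ∑ C ∈ perms T, (S.mode C - 1) +
      ((perms T).filter (fun C => S.Wasted C ∧ ¬ S.Out C)).card =
      (Fintype.card α - 1).factorial + ((perms T).filter (fun C => S.Out C)).card := by
    have hcT : (perms T).card = (Fintype.card α - 1).factorial := by
      rw [card_perms, hT, Finset.card_sdiff_of_subset (Finset.subset_univ _),
        Finset.card_singleton, Finset.card_univ]
    rw [← hcT, Finset.card_eq_sum_ones (perms T), Finset.card_filter, Finset.card_filter,
      ← Finset.sum_add_distrib, ← Finset.sum_add_distrib]
    refine Finset.sum_congr rfl fun C _ => ?_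
    unfold mode
    by_cases ho : S.Out C
    · simp [ho]
    · by_cases hw : S.Wasted C
      · simp [ho, hw]
      · simp [ho, hw]
  have h4 := S.CountF_card_out
  have h5 := S.CountF_card_wasted
  rw [← hT] at h4 h5
  have h6 : ∑ C ∈ perms T, (S.mode C - 1) + 2 * S.cntW ≤
      (Fintype.card α - 1).factorial + (Fintype.card α - 2).factorial := by
    have : ((perms T).filter (fun C => S.Out C)).card ≤ (Fintype.card α - 2).factorial := by
      convert h4
    have h5' : 2 * S.cntW ≤
        ((perms T).filter (fun C => S.Wasted C ∧ ¬ S.Out C)).card := by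
      convert h5
    omega
  rw [h1, h2]
  omega

open scoped Classical in
/-- The cyclic words without `x`, `w` have `n - 2` rotations. -/
theorem cntW_eq : (Fintype.card α - 2) * S.cntM ≤ S.cntW := by
  set T : Finset α := univ \ {S.x, S.w} with hT
  have hcT : T.card = Fintype.card α - 2 := by
    rw [hT, Finset.card_sdiff_of_subset (Finset.subset_univ _), Finset.card_univ,
      Finset.card_pair S.x_ne_w]
  have hA : ∀ C ∈ perms T, ∀ a ∈ S.A, a ∈ C := by
    intro C hC a ha
    rw [mem_iff_of_mem_perms hC]
    simp only [hT, mem_sdiff, mem_univ, mem_insert, mem_singleton, true_and, not_or]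
    exact ⟨fun e => S.x_notMem (e ▸ ha), fun e => S.w_notMem (e ▸ ha)⟩
  have hi : ∀ C ∈ perms T, ∀ k, S.info (C.rotate k) = S.info C := by
    intro C hC k
    induction k with
    | zero => rw [List.rotate_zero]
    | succ k ih =>
      have h := CountF_rotate_mem hC k
      rw [← ih, ← List.rotate_rotate]
      exact S.rot _ (nodup_of_mem_perms h) (hA _ h)
  have hW : S.cntW = ((perms T).filter (fun C => (S.info C).2 = false)).card := by
    rw [cntW, ← hT]
    congr 1
    refine Finset.filter_congr fun l _ => ?_
    have : S.info (S.w :: l) = S.info l := by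
      rw [← S.filt (S.w :: l), ← S.filt l]
      congr 1
      simp [List.filter_cons, S.w_notMem]
    rw [this]
  have hle : ∀ a ∈ T, S.cntM ≤
      ((perms T).filter (fun C => C.head? = some a ∧ (S.info C).2 = false)).card := by
    intro a ha
    have h1 := CountF_anchor T (fun C => (S.info C).1) (fun _ => a) (fun C => (S.info C).2 = false)
      (fun C hC k => by rw [hi C hC k]) (fun _ _ _ => rfl)
      (fun C hC k h => by rw [hi C hC k]; exact h) (fun _ _ => ha)
    refine le_trans (le_of_eq ?_) h1
    rw [cntM, ← hT]
  rw [hW, ← hcT, ← smul_eq_mul, ← Finset.sum_const]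
  refine (Finset.sum_le_sum hle).trans ?_
  rw [← Finset.card_biUnion]
  · apply Finset.card_le_card
    intro C hC
    rw [Finset.mem_biUnion] at hC
    obtain ⟨a, _, hC⟩ := hC
    rw [Finset.mem_filter] at hC ⊢
    exact ⟨hC.1, hC.2.2⟩
  · intro a _ b _ hab
    rw [Function.onFun, Finset.disjoint_left]
    intro C hC hC'
    rw [Finset.mem_filter] at hC hC'
    have := hC.2.1.symm.trans hC'.2.1
    exact hab (Option.some.inj this)

end Rule

end Pool.Agent.Lib.MP_e0d433_co
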