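import Pool.Agent.Lib.MP_e0d433_co.F.Defs
import Pool.Agent.Lib.MP_e0d433_co.Count

/-!
# MP_e0d433_co, F: the number of rows of a rule

Adapted from `SysCount2.lean`; the cyclic words are anchored at the mover.
-/

set_option autoImplicit false

namespace Pool.Agent.Lib.MP_e0d433_co

open Finset

theorem cnt2F_mem_perms_of_perm {α : Type*} [DecidableEq α] [Fintype α]
    {P l ex : List α} (hP : P ∈ perms (univ : Finset α)) (h : P.Perm (ex ++ l)) :
    l ∈ perms (univ \ ex.toFinset : Finset α) := by
  have hnd : (ex ++ l).Nodup := h.nodup_iff.1 (nodup_of_mem_perms hP)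
  rw [mem_perms]
  refine ⟨(List.nodup_append.1 hnd).2.1, ?_⟩
  ext a
  have hmem : a ∈ ex ++ l := h.mem_iff.1 ((mem_iff_of_mem_perms hP a).2 (mem_univ a))
  rw [List.mem_append] at hmem
  have hdis := List.disjoint_of_nodup_append hnd
  simp only [List.mem_toFinset, mem_sdiff, mem_univ, true_and]
  constructor
  · intro ha hex
    exact hdis hex ha
  · intro ha
    exact hmem.resolve_left ha

theorem cnt2F_length {α : Type*} [DecidableEq α] [Fintype α]
    {a : α} {Q : List α} (hP : a :: Q ∈ perms (univ : Finset α)) :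
    Q.length = Fintype.card α - 1 := by
  have := length_of_mem_perms hP
  rw [List.length_cons, card_univ] at this
  omega

theorem cnt2F_exists_rotate {α : Type*} {Q R : List α} (h : Q ~r R) (hQ : Q ≠ []) :
    ∃ k < Q.length, R.rotate k = Q := by
  obtain ⟨k, hk⟩ := h.symm
  have hl : R.length = Q.length := h.perm.length_eq.symm
  have hpos : 0 < Q.length := List.length_pos_iff.2 hQ
  exact ⟨k % R.length, by rw [hl]; exact Nat.mod_lt _ hpos, by rw [List.rotate_mod, hk]⟩

namespace Rule

variable {α : Type*} [DecidableEq α] [Fintype α] (S : Rule α)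

omit [Fintype α] in
theorem cnt2F_info_rotate (C : List α) (hC : C.Nodup) (hA : ∀ a ∈ S.A, a ∈ C) (k : ℕ) :
    S.info (C.rotate k) = S.info C := by
  induction k with
  | zero => simp
  | succ k ih =>
    rw [← ih, ← List.rotate_rotate]
    exact S.rot _ (List.nodup_rotate.2 hC) fun a ha => List.mem_rotate.2 (hA a ha)

omit [Fintype α] in
theorem cnt2F_info_isRotated {C D : List α} (h : C ~r D) (hC : C.Nodup)
    (hA : ∀ a ∈ S.A, a ∈ C) : S.info D = S.info C := by
  obtain ⟨k, rfl⟩ := h
  exact S.cnt2F_info_rotate C hC hA k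

/-- The common core of the two cases of `card_EW`. -/
theorem cnt2F_EW_aux {Q l : List α} {q : α} (side : Bool)
    (hP : S.w :: Q ∈ perms (univ : Finset α)) (hq : S.info Q = (q, false))
    (hrot : Q ~r ((if side then [q, S.x] else [S.x, q]) ++ l)) :
    q :: l ∈ (perms (univ \ {S.x, S.w} : Finset α)).filter
        (fun l => l.head? = some (S.info l).1 ∧ (S.info l).2 = false) ∧
      ∃ k < Fintype.card α - 1,
      S.w :: ((if side then [q, S.x] else [S.x, q]) ++ l).rotate k = S.w :: Q := by
  have hnd : Q.Nodup := (List.nodup_cons.1 (nodup_of_mem_perms hP)).2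
  have hA : ∀ a ∈ S.A, a ∈ Q := by
    intro a ha
    have h1 : a ∈ S.w :: Q := (mem_iff_of_mem_perms hP a).2 (mem_univ a)
    rcases List.mem_cons.1 h1 with h1 | h1
    · exact absurd (h1 ▸ ha) S.w_notMem
    · exact h1
  set R : List α := (if side then [q, S.x] else [S.x, q]) ++ l with hR
  have hRnd : R.Nodup := (List.IsRotated.nodup_iff hrot).1 hnd
  have hperm : R.Perm (S.x :: q :: l) := by
    rw [hR]
    cases side
    · simp
    · simpa using List.Perm.swap S.x q l
  have hinfo : S.info (q :: l) = (q, false) := by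
    rw [← hq, ← S.cnt2F_info_isRotated hrot hnd hA, ← S.filt (q :: l), ← S.filt R]
    congr 1
    rw [hR]
    cases side <;> simp [S.x_notMem, List.filter_cons]
  have hQne : Q ≠ [] := by
    intro h
    rw [h] at hrot
    have := hrot.perm.length_eq
    rw [hperm.length_eq] at this
    simp at this
  obtain ⟨k, hk, hkQ⟩ := cnt2F_exists_rotate hrot hQne
  refine ⟨?_, k, ?_, by rw [hkQ]⟩
  · rw [mem_filter]
    refine ⟨?_, by rw [hinfo]; rfl, by rw [hinfo]⟩
    have h1 : ({S.x, S.w} : Finset α) = ([S.x, S.w] : List α).toFinset := by simp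
    rw [h1]
    apply cnt2F_mem_perms_of_perm hP
    have h2 : Q.Perm (S.x :: q :: l) := hrot.perm.trans hperm
    refine (List.Perm.cons _ h2).trans ?_
    exact List.Perm.swap _ _ _
  · rw [← cnt2F_length hP]
    exact hk

theorem card_EW : S.EW.card ≤ 2 * (Fintype.card α - 1) * S.cntM := by
  classical
  have hsub : S.EW ⊆ (((perms (univ \ {S.x, S.w} : Finset α)).filter
      (fun l => l.head? = some (S.info l).1 ∧ (S.info l).2 = false)) ×ˢ
        ((univ : Finset Bool) ×ˢ range (Fintype.card α - 1))).image
      (fun t => S.w :: ((if t.2.1 then [(S.info t.1).1, S.x] else [S.x, (S.info t.1).1]) ++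
        t.1.tail).rotate t.2.2) := by
    intro P hP
    simp only [EW, mem_filter] at hP
    obtain ⟨hP, Q, rfl, hdir, l, hl⟩ := hP
    have hq : S.info Q = ((S.info Q).1, false) := Prod.ext rfl hdir
    rw [mem_image]
    rcases hl with hl | hl
    · obtain ⟨hl', k, hk, h⟩ := S.cnt2F_EW_aux (l := l) false hP hq (by simpa using hl)
      have hh := (mem_filter.1 hl').2.1
      rw [List.head?_cons, Option.some.injEq] at hh
      refine ⟨((S.info Q).1 :: l, false, k), ?_, ?_⟩
      · simp only [mem_product, mem_univ, true_and, mem_range]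
        exact ⟨hl', hk⟩
      · simp only [List.tail_cons, ← hh]
        exact h
    · obtain ⟨hl', k, hk, h⟩ := S.cnt2F_EW_aux (l := l) true hP hq (by simpa using hl)
      have hh := (mem_filter.1 hl').2.1
      rw [List.head?_cons, Option.some.injEq] at hh
      refine ⟨((S.info Q).1 :: l, true, k), ?_, ?_⟩
      · simp only [mem_product, mem_univ, true_and, mem_range]
        exact ⟨hl', hk⟩
      · simp only [List.tail_cons, ← hh]
        exact h
  refine (card_le_card hsub).trans (card_image_le.trans ?_)
  rw [card_product, card_product, card_range, card_univ, Fintype.card_bool, cntM]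
  refine le_of_eq ?_
  rw [Nat.mul_comm]

theorem card_EV (V : Finset (List α)) :
    (S.EV V).card ≤ (Fintype.card α - 1) * V.card := by
  classical
  have hsub : S.EV V ⊆ (V ×ˢ range (Fintype.card α - 1)).image
      (fun t => S.w :: (S.x :: t.1).rotate t.2) := by
    intro P hP
    simp only [EV, mem_filter] at hP
    obtain ⟨hP, Q, l, rfl, hrot, hV⟩ := hP
    rw [mem_image]
    have hQne : Q ≠ [] := by
      intro h
      rw [h] at hrot
      have := hrot.perm.length_eq
      simp at this
    obtain ⟨k, hk, hkQ⟩ := cnt2F_exists_rotate hrot hQne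
    refine ⟨(l, k), ?_, by simp only [hkQ]⟩
    simp only [mem_product, mem_range]
    exact ⟨hV, by rw [← cnt2F_length hP]; exact hk⟩
  refine (card_le_card hsub).trans (card_image_le.trans ?_)
  rw [card_product, card_range]
  exact (Nat.mul_comm _ _).le

omit [Fintype α] in
theorem card_KV (V : Finset (List α)) : (S.KV V).card ≤ V.card := card_image_le

end Rule

end Pool.Agent.Lib.MP_e0d433_co
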