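import Pool.Agent.Lib.MP_e0d433_co.F.Defs

/-!
# MP_e0d433_co, F: connectivity for a rule

Adapted from `SysReach.lean`.
-/

set_option autoImplicit false

namespace Pool.Agent.Lib.MP_e0d433_co

open Finset

namespace Rule

variable {α : Type*} [DecidableEq α] [Fintype α] (S : Rule α)

omit [DecidableEq α] [Fintype α] in
theorem reach_isRotated_append (a b : List α) : (a ++ b) ~r (b ++ a) :=
  ⟨a.length, List.rotate_append_length_eq a b⟩

omit [DecidableEq α] [Fintype α] in
theorem reach_eq_of_head {q : α} {L L' : List α} (hn : (q :: L).Nodup)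
    (h : (q :: L) ~r (q :: L')) : L = L' := by
  obtain ⟨n, hn'⟩ := h
  rw [List.rotate_eq_drop_append_take_mod] at hn'
  set m := n % (q :: L).length with hm
  have hml : m < (q :: L).length := Nat.mod_lt _ (by simp)
  rcases Nat.eq_zero_or_pos m with h0 | h0
  · rw [h0] at hn'
    simpa using hn'
  · exfalso
    obtain ⟨m', hm'⟩ := Nat.exists_eq_succ_of_ne_zero h0.ne'
    rw [hm', Nat.succ_eq_add_one, List.drop_succ_cons] at hn'
    have h1 : L.drop m' ≠ [] := by
      intro h2
      have := List.drop_eq_nil_iff.1 h2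
      simp only [List.length_cons] at hml
      omega
    obtain ⟨y, t, hy⟩ := List.exists_cons_of_ne_nil h1
    rw [hy, List.cons_append, List.cons.injEq] at hn'
    have h3 : y ∈ L := by
      apply List.mem_of_mem_drop (i := m')
      rw [hy]
      simp
    rw [hn'.1] at h3
    exact (List.nodup_cons.1 hn).1 h3

omit [Fintype α] in
theorem reach_info_rot {L L' : List α} (hn : L.Nodup) (hA : ∀ a ∈ S.A, a ∈ L)
    (h : L ~r L') : S.info L' = S.info L := by
  obtain ⟨n, rfl⟩ := h
  induction n with
  | zero => simp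
  | succ n ih =>
    rw [← List.rotate_rotate, S.rot _ (List.nodup_rotate.2 hn)
      (fun a ha => List.mem_rotate.2 (hA a ha)), ih]

omit [Fintype α] in
theorem reach_info_filt {L L' : List α} (hn : L.Nodup) (hA : ∀ a ∈ S.A, a ∈ L)
    (h : (L.filter (· ∈ S.A)) ~r (L'.filter (· ∈ S.A))) : S.info L' = S.info L := by
  rw [← S.filt L, ← S.filt L']
  exact reach_info_rot S (hn.filter _) (fun a ha => List.mem_filter.2 ⟨hA a ha, by simpa using ha⟩) h

theorem reach_mem {P : List α} (hP : P ∈ perms (univ : Finset α)) (a : α) : a ∈ P :=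
  (mem_iff_of_mem_perms hP a).2 (Finset.mem_univ a)

theorem reach_A_tail {u : α} (hu : u ∉ S.A) {C : List α}
    (hP : u :: C ∈ perms (univ : Finset α)) : ∀ a ∈ S.A, a ∈ C := by
  intro a ha
  rcases List.mem_cons.1 (reach_mem hP a) with h | h
  · exact absurd (h ▸ ha) hu
  · exact h

theorem reach_nodup_tail {u : α} {C : List α}
    (hP : u :: C ∈ perms (univ : Finset α)) : C.Nodup :=
  (List.nodup_cons.1 (nodup_of_mem_perms hP)).2

theorem lrot_EW : ∀ P ∈ S.EW, lrot P ∈ S.EW := by
  classical
  intro P hP
  simp only [EW, Finset.mem_filter] at hP ⊢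
  obtain ⟨hP, Q, rfl, h1, l, h2⟩ := hP
  have hi : S.info (Q.rotate 1) = S.info Q :=
    S.rot Q (reach_nodup_tail hP) (reach_A_tail S S.w_notMem hP)
  have hr : Q.rotate 1 ~r Q := (List.IsRotated.symm ⟨1, rfl⟩)
  refine ⟨?_, Q.rotate 1, rfl, by rw [hi]; exact h1, l, ?_⟩
  · apply perm_mem_perms hP
    exact List.Perm.cons _ (List.rotate_perm Q 1)
  · rw [hi]
    rcases h2 with h2 | h2
    · exact Or.inl (hr.trans h2)
    · exact Or.inr (hr.trans h2)

theorem lrot_EV (V : Finset (List α)) : ∀ P ∈ S.EV V, lrot P ∈ S.EV V := by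
  classical
  intro P hP
  simp only [EV, Finset.mem_filter] at hP ⊢
  obtain ⟨hP, Q, l, rfl, h1, h2⟩ := hP
  have hr : Q.rotate 1 ~r Q := (List.IsRotated.symm ⟨1, rfl⟩)
  refine ⟨?_, Q.rotate 1, l, rfl, hr.trans h1, h2⟩
  apply perm_mem_perms hP
  exact List.Perm.cons _ (List.rotate_perm Q 1)

theorem reach_step {E : Finset (List α)} {P : List α}
    (hP : P ∈ perms (univ : Finset α)) : S.Conn E P (S.step P) :=
  Relation.EqvGen.rel _ _ (Or.inl ⟨hP, rfl⟩)

theorem reach_refl {E : Finset (List α)} (P : List α) : S.Conn E P P :=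
  Relation.EqvGen.refl P

theorem reach_symm {E : Finset (List α)} {P Q : List α} (h : S.Conn E P Q) :
    S.Conn E Q P := Relation.EqvGen.symm _ _ h

theorem reach_trans {E : Finset (List α)} {P Q R : List α} (h : S.Conn E P Q)
    (h' : S.Conn E Q R) : S.Conn E P R := Relation.EqvGen.trans _ _ _ h h'

theorem reach_swap_aux (E : Finset (List α)) : ∀ C R : List α,
    C ++ R ∈ perms (univ : Finset α) → S.x ∉ C → S.Conn E (C ++ R) (R ++ C) := by
  intro C
  induction C with
  | nil => intro R _ _; rw [List.append_nil, List.nil_append]; exact reach_refl S R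
  | cons c C ih =>
    intro R hP hx
    have hcx : c ≠ S.x := fun h => hx (by simp [h])
    have h1 : S.step (c :: C ++ R) = C ++ (R ++ [c]) := by
      have hmd : S.md (c :: C ++ R) = 1 := by
        rw [md, if_neg]
        simpa using hcx
      rw [step, hmd]
      simp
    have h2 : C ++ (R ++ [c]) ∈ perms (univ : Finset α) := by
      apply perm_mem_perms hP
      have : (C ++ R ++ [c]).Perm (c :: (C ++ R)) := List.perm_append_singleton c (C ++ R)
      simpa using this
    have h3 := reach_step S (E := E) hP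
    rw [h1] at h3
    have h4 := ih (R ++ [c]) h2 (fun h => hx (List.mem_cons_of_mem _ h))
    have h5 := reach_trans S h3 h4
    simpa using h5

theorem reach_swap (E : Finset (List α)) (C R : List α)
    (hP : C ++ R ∈ perms (univ : Finset α)) : S.Conn E (C ++ R) (R ++ C) := by
  by_cases hx : S.x ∈ C
  · have hx' : S.x ∉ R := by
      have := List.disjoint_of_nodup_append (nodup_of_mem_perms hP)
      exact fun h => this hx h
    have hP' : R ++ C ∈ perms (univ : Finset α) := perm_mem_perms hP List.perm_append_comm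
    exact reach_symm S (reach_swap_aux S E R C hP' hx')
  · exact reach_swap_aux S E C R hP hx

/-- Mode `2` step. -/
theorem reach_two (E : Finset (List α)) (b : α) (C : List α)
    (hP : S.x :: b :: C ∈ perms (univ : Finset α)) (h1 : ¬ S.Out (b :: C))
    (h2 : ¬ S.Wasted (b :: C)) : S.Conn E (S.x :: b :: C) (S.x :: (C ++ [b])) := by
  have hmd : S.md (S.x :: b :: C) = 2 := by
    rw [md, if_pos (by simp), List.tail_cons, mode, if_neg h1, if_neg h2]
  have hs : S.step (S.x :: b :: C) = (C ++ [b]) ++ [S.x] := by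
    rw [step, hmd]
    simp
  have h3 := reach_step S (E := E) hP
  rw [hs] at h3
  have hP' : (C ++ [b]) ++ [S.x] ∈ perms (univ : Finset α) := by
    apply perm_mem_perms hP
    refine (List.perm_append_singleton S.x (C ++ [b])).trans (List.Perm.cons _ ?_)
    exact List.perm_append_singleton b C
  have h4 := reach_swap S E (C ++ [b]) [S.x] hP'
  exact reach_trans S h3 h4

/-- Mode `3` step. -/
theorem reach_three (E : Finset (List α)) (b c : α) (l : List α)
    (hP : S.x :: b :: c :: l ∈ perms (univ : Finset α)) (h1 : S.Out (b :: c :: l)) :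
    S.Conn E (S.x :: b :: c :: l) (S.x :: (l ++ [c, b])) := by
  have hmd : S.md (S.x :: b :: c :: l) = 3 := by
    rw [md, if_pos (by simp), List.tail_cons, mode, if_pos h1]
  have hs : S.step (S.x :: b :: c :: l) = (l ++ [c, b]) ++ [S.x] := by
    rw [step, hmd]
    simp
  have h3 := reach_step S (E := E) hP
  rw [hs] at h3
  have hP' : (l ++ [c, b]) ++ [S.x] ∈ perms (univ : Finset α) := by
    apply perm_mem_perms hP
    refine (List.perm_append_singleton S.x (l ++ [c, b])).trans (List.Perm.cons _ ?_)
    have e1 : (l ++ [c, b]).Perm ([c, b] ++ l) := List.perm_append_comm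
    exact e1.trans (List.Perm.swap b c l)
  have h4 := reach_swap S E (l ++ [c, b]) [S.x] hP'
  exact reach_trans S h3 h4

theorem reach_info_of_mem {C C' : List α} (hP : S.x :: C ∈ perms (univ : Finset α))
    (h : C ~r C') : S.info C' = S.info C :=
  reach_info_rot S (reach_nodup_tail hP) (reach_A_tail S S.x_notMem hP) h

theorem reach_rot_mem {u : α} {C C' : List α} (hP : u :: C ∈ perms (univ : Finset α))
    (h : C ~r C') : u :: C' ∈ perms (univ : Finset α) :=
  perm_mem_perms hP (List.Perm.cons _ h.symm.perm)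

/-- Right moving: rotate until the mover is first. -/
theorem reach_right (E : Finset (List α)) (q : α) : ∀ C₁ C₂ : List α,
    S.x :: (C₁ ++ q :: C₂) ∈ perms (univ : Finset α) → S.info (C₁ ++ q :: C₂) = (q, true) →
    S.Conn E (S.x :: (C₁ ++ q :: C₂)) (S.x :: (q :: (C₂ ++ C₁))) := by
  intro C₁
  induction C₁ with
  | nil => intro C₂ _ _; rw [List.append_nil, List.nil_append]; exact reach_refl S _
  | cons b C₁ ih =>
    intro C₂ hP hi
    have hn := reach_nodup_tail hP
    have hbq : b ≠ q := by
      intro h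
      subst h
      have := (List.nodup_cons.1 hn).1
      exact this (by simp)
    have h1 : ¬ S.Out (b :: C₁ ++ q :: C₂) := by
      rintro ⟨b', c', l', e, h | h⟩
      · rw [hi] at h
        simp only [List.cons_append, List.cons.injEq] at e
        exact hbq (e.1.trans (Prod.mk.inj h).1.symm)
      · rw [hi] at h
        exact Bool.noConfusion (Prod.mk.inj h).2
    have h2 : ¬ S.Wasted (b :: C₁ ++ q :: C₂) := by
      rintro ⟨h, _⟩
      rw [hi] at h
      exact Bool.noConfusion h
    have h3 := reach_two S E b (C₁ ++ q :: C₂) hP h1 h2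
    have hrot : (b :: C₁ ++ q :: C₂) ~r (C₁ ++ q :: (C₂ ++ [b])) := by
      have := reach_isRotated_append [b] (C₁ ++ q :: C₂)
      simpa using this
    have h4 := ih (C₂ ++ [b]) (reach_rot_mem hP hrot)
      ((reach_info_of_mem S hP hrot).trans hi)
    have e1 : C₁ ++ q :: C₂ ++ [b] = C₁ ++ q :: (C₂ ++ [b]) := by simp
    rw [e1] at h3
    have h5 := reach_trans S h3 h4
    simpa using h5

/-- Left moving: rotate until the mover is second. -/
theorem reach_left (E : Finset (List α)) (q b : α) : ∀ D C₂ : List α, C₂ ≠ [] →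
    S.x :: (D ++ b :: q :: C₂) ∈ perms (univ : Finset α) →
    S.info (D ++ b :: q :: C₂) = (q, false) →
    S.Conn E (S.x :: (D ++ b :: q :: C₂)) (S.x :: (b :: q :: (C₂ ++ D))) := by
  intro D
  induction D with
  | nil => intro C₂ _ _ _; rw [List.append_nil, List.nil_append]; exact reach_refl S _
  | cons e D ih =>
    intro C₂ hC hP hi
    have hn := reach_nodup_tail hP
    have heq : e ≠ q := by
      intro h
      subst h
      have := (List.nodup_cons.1 hn).1
      exact this (by simp)
    have h1 : ¬ S.Out (e :: D ++ b :: q :: C₂) := by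
      rintro ⟨b', c', l', e', h | h⟩
      · rw [hi] at h
        exact Bool.noConfusion (Prod.mk.inj h).2
      · rw [hi] at h
        have hc : c' = q := (Prod.mk.inj h).1.symm
        subst hc
        simp only [List.cons_append, List.cons.injEq] at e'
        have hn' : (D ++ b :: c' :: C₂).Nodup := (List.nodup_cons.1 hn).2
        rcases D with _ | ⟨d, D⟩
        · simp only [List.nil_append, List.cons.injEq] at e'
          rw [List.nil_append] at hn'
          have := (List.nodup_cons.1 hn').1
          exact this (by rw [e'.2.1]; simp)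
        · simp only [List.cons_append, List.cons.injEq] at e'
          have := (List.nodup_cons.1 hn').1
          exact this (by rw [e'.2.1]; simp)
    have h2 : ¬ S.Wasted (e :: D ++ b :: q :: C₂) := by
      rintro ⟨_, h | h⟩
      · rw [hi] at h
        simp only [List.cons_append, List.head?_cons, Option.some.injEq] at h
        exact heq h
      · rw [hi] at h
        have hl : (e :: D ++ b :: q :: C₂).getLast? = C₂.getLast? := by
          have e1 : e :: D ++ b :: q :: C₂ = (e :: D ++ [b, q]) ++ C₂ := by simp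
          rw [e1, List.getLast?_append_of_ne_nil _ hC]
        rw [hl] at h
        have hq : q ∈ C₂ := List.mem_of_getLast? h
        have hn' : (e :: D ++ b :: q :: C₂).Nodup := hn
        have h3 : (q :: C₂).Nodup := by
          have e1 : e :: D ++ b :: q :: C₂ = (e :: D ++ [b]) ++ (q :: C₂) := by simp
          rw [e1] at hn'
          exact hn'.of_append_right
        exact (List.nodup_cons.1 h3).1 hq
    have h3 := reach_two S E e (D ++ b :: q :: C₂) hP h1 h2
    have hrot : (e :: D ++ b :: q :: C₂) ~r (D ++ b :: q :: (C₂ ++ [e])) := by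
      have := reach_isRotated_append [e] (D ++ b :: q :: C₂)
      simpa using this
    have h4 := ih (C₂ ++ [e]) (by simp) (reach_rot_mem hP hrot)
      ((reach_info_of_mem S hP hrot).trans hi)
    have e1 : D ++ b :: q :: C₂ ++ [e] = D ++ b :: q :: (C₂ ++ [e]) := by simp
    rw [e1] at h3
    have h5 := reach_trans S h3 h4
    simpa using h5

theorem reach_three_le {C : List α} (hP : S.x :: C ∈ perms (univ : Finset α)) : 3 ≤ C.length := by
  have hsub : insert S.w S.A ⊆ C.toFinset := by
    intro a ha
    rw [List.mem_toFinset]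
    rw [Finset.mem_insert] at ha
    rcases ha with rfl | ha
    · rcases List.mem_cons.1 (reach_mem hP S.w) with h | h
      · exact absurd h.symm S.x_ne_w
      · exact h
    · exact reach_A_tail S S.x_notMem hP _ ha
  have hcard : (insert S.w S.A).card = S.A.card + 1 := Finset.card_insert_of_notMem S.w_notMem
  have h2 := S.two_le
  have h3 := Finset.card_le_card hsub
  have h4 := List.toFinset_card_le C
  omega

theorem reach_other {C : List α} (hP : S.x :: C ∈ perms (univ : Finset α)) (q : α) :
    ∃ a ∈ S.A, a ∈ C ∧ a ≠ q := by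
  have h2 := S.two_le
  obtain ⟨a, ha, haq⟩ := Finset.exists_mem_ne (by omega : 1 < S.A.card) q
  exact ⟨a, ha, reach_A_tail S S.x_notMem hP _ ha, haq⟩

theorem reach_mover_mem {C : List α} (hP : S.x :: C ∈ perms (univ : Finset α)) :
    (S.info C).1 ∈ C ∧ (S.info C).1 ∈ S.A := by
  have h := S.mem C (reach_nodup_tail hP) (reach_A_tail S S.x_notMem hP)
  exact ⟨reach_A_tail S S.x_notMem hP _ h, h⟩

/-- Every main word is connected with an `Out` rotation. -/
theorem reach_main_out (E : Finset (List α)) {C : List α}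
    (hP : S.x :: C ∈ perms (univ : Finset α)) (hm : S.Main C) :
    ∃ C', C ~r C' ∧ S.Out C' ∧ S.Conn E (S.x :: C) (S.x :: C') := by
  by_cases ho : S.Out C
  · exact ⟨C, List.IsRotated.refl C, ho, reach_refl S _⟩
  have hw : ¬ S.Wasted C := hm.resolve_right ho
  obtain ⟨hq, hqA⟩ := reach_mover_mem S hP
  rcases hi : S.info C with ⟨q, d⟩
  rw [hi] at hq
  simp only at hq
  have hlen := reach_three_le S hP
  obtain ⟨C₁, C₂, rfl⟩ := List.append_of_mem hq
  have hn := reach_nodup_tail hP
  cases d with
  | true =>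
    have hrot : (C₁ ++ q :: C₂) ~r (q :: (C₂ ++ C₁)) := by
      have := reach_isRotated_append C₁ (q :: C₂)
      simpa using this
    refine ⟨q :: (C₂ ++ C₁), hrot, ?_, reach_right S E q C₁ C₂ hP hi⟩
    have hne : C₂ ++ C₁ ≠ [] := by
      intro h
      have h3 := congrArg List.length h
      simp only [List.length_append, List.length_nil, List.length_cons] at h3 hlen
      omega
    obtain ⟨c, l, hcl⟩ := List.exists_cons_of_ne_nil hne
    refine ⟨q, c, l, by rw [hcl], Or.inl ?_⟩
    rw [reach_info_of_mem S hP hrot, hi]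
  | false =>
    have hC₂ : C₂ ≠ [] := by
      intro h
      subst h
      apply hw
      refine ⟨by rw [hi], Or.inr ?_⟩
      rw [hi]
      simp
    have hC₁ : C₁ ≠ [] := by
      intro h
      subst h
      apply hw
      refine ⟨by rw [hi], Or.inl ?_⟩
      rw [hi]
      simp
    obtain ⟨D, b, rfl⟩ : ∃ D b, C₁ = D ++ [b] := by
      rcases List.eq_nil_or_concat C₁ with h | ⟨D, b, h⟩
      · exact absurd h hC₁
      · exact ⟨D, b, by simpa using h⟩
    have e1 : D ++ [b] ++ q :: C₂ = D ++ b :: q :: C₂ := by simp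
    rw [e1] at hP hi hn ⊢
    have hrot : (D ++ b :: q :: C₂) ~r (b :: q :: (C₂ ++ D)) := by
      have := reach_isRotated_append D (b :: q :: C₂)
      simpa using this
    refine ⟨b :: q :: (C₂ ++ D), hrot, ?_, reach_left S E q b D C₂ hC₂ hP hi⟩
    refine ⟨b, q, C₂ ++ D, rfl, Or.inr ?_⟩
    rw [reach_info_of_mem S hP hrot, hi]

omit [Fintype α] in
theorem reach_out_unique {C C' : List α} (hn : C.Nodup) (hi : S.info C' = S.info C)
    (h : C ~r C') (ho : S.Out C) (ho' : S.Out C') : C = C' := by
  obtain ⟨b, c, l, rfl, h1⟩ := ho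
  obtain ⟨b', c', l', rfl, h2⟩ := ho'
  rw [hi] at h2
  rcases h1 with h1 | h1 <;> rcases h2 with h2 | h2
  · rw [h1] at h2
    have : b = b' := (Prod.mk.inj h2).1
    subst this
    rw [reach_eq_of_head hn h]
  · rw [h1] at h2
    exact Bool.noConfusion (Prod.mk.inj h2).2
  · rw [h1] at h2
    exact Bool.noConfusion (Prod.mk.inj h2).2
  · rw [h1] at h2
    have : c = c' := (Prod.mk.inj h2).1
    subst this
    have r1 : (b :: c :: l) ~r (c :: (l ++ [b])) := by
      have := reach_isRotated_append [b] (c :: l)
      simpa using this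
    have r2 : (b' :: c :: l') ~r (c :: (l' ++ [b'])) := by
      have := reach_isRotated_append [b'] (c :: l')
      simpa using this
    have r3 : (c :: (l ++ [b])) ~r (c :: (l' ++ [b'])) := (r1.symm.trans h).trans r2
    have hn' : (c :: (l ++ [b])).Nodup := r1.nodup_iff.1 hn
    have e := reach_eq_of_head hn' r3
    have e2 := List.append_inj' e rfl
    have e3 : b = b' := by simpa using e2.2
    rw [e2.1, e3]

/-- Main words which are rotations of each other are connected. -/
theorem reach_main (E : Finset (List α)) {C C' : List α}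
    (hP : S.x :: C ∈ perms (univ : Finset α)) (h : C ~r C') (hm : S.Main C)
    (hm' : S.Main C') : S.Conn E (S.x :: C) (S.x :: C') := by
  have hP' : S.x :: C' ∈ perms (univ : Finset α) := reach_rot_mem hP h
  obtain ⟨D, h1, h2, h3⟩ := reach_main_out S E hP hm
  obtain ⟨D', h1', h2', h3'⟩ := reach_main_out S E hP' hm'
  have hDD : D ~r D' := (h1.symm.trans h).trans h1'
  have hPD : S.x :: D ∈ perms (univ : Finset α) := reach_rot_mem hP h1
  have : D = D' := reach_out_unique S (reach_nodup_tail hPD) (reach_info_of_mem S hPD hDD) hDD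
    h2 h2'
  subst this
  exact reach_trans S h3 (reach_symm S h3')

/-- The exit of an `Out` word. -/
theorem reach_exit (E : Finset (List α)) (b c : α) (r : List α)
    (hP : S.x :: b :: c :: r ∈ perms (univ : Finset α))
    (hi : S.info (b :: c :: r) = (b, true) ∨ S.info (b :: c :: r) = (c, false)) :
    S.Main (b :: c :: r) ∧ S.Main (r ++ [c, b]) ∧
      S.Conn E (S.x :: b :: c :: r) (S.x :: (r ++ [c, b])) := by
  have ho : S.Out (b :: c :: r) := ⟨b, c, r, rfl, hi⟩
  have hr : r ≠ [] := by
    intro h
    have h3 := reach_three_le S hP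
    rw [h] at h3
    simp at h3
  refine ⟨Or.inr ho, ?_, reach_three S E b c r hP ho⟩
  left
  have hn := reach_nodup_tail hP
  have hA := reach_A_tail S S.x_notMem hP
  have hsw := S.switch b c r hn hA hi
  have hPerm : S.x :: c :: b :: r ∈ perms (univ : Finset α) :=
    perm_mem_perms hP (List.Perm.cons _ (List.Perm.swap b c r))
  have hrot : (c :: b :: r) ~r (r ++ [c, b]) := by
    have := reach_isRotated_append [c, b] r
    simpa using this
  have hi2 := reach_info_of_mem S hPerm hrot
  rw [← hi2] at hsw
  have hP2 := reach_rot_mem hPerm hrot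
  have hbc : b ≠ c := by
    intro h
    subst h
    exact (List.nodup_cons.1 hn).1 (by simp)
  rintro ⟨h1, h2⟩
  rcases hsw with hsw | hsw
  · rw [hsw] at h1
    exact Bool.noConfusion h1
  · rw [hsw] at h2
    simp only at h2
    rcases h2 with h2 | h2
    · obtain ⟨y, t, rfl⟩ := List.exists_cons_of_ne_nil hr
      simp only [List.cons_append, List.head?_cons, Option.some.injEq] at h2
      subst h2
      have := (List.nodup_cons.1 (List.nodup_cons.1 hn).2).1
      exact this (by simp)
    · rw [List.getLast?_append_of_ne_nil _ (by simp)] at h2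
      simp only [List.getLast?_cons_cons, List.getLast?_singleton, Option.some.injEq] at h2
      exact hbc h2

theorem reach_lrot {E : Finset (List α)} (u : α) (Q : List α)
    (hE : ∀ k : ℕ, u :: Q.rotate k ∈ E) {Q' : List α} (h : Q ~r Q') :
    S.Conn E (u :: Q) (u :: Q') := by
  obtain ⟨n, rfl⟩ := h
  induction n with
  | zero => rw [List.rotate_zero]; exact reach_refl S _
  | succ n ih =>
    refine reach_trans S ih (Relation.EqvGen.rel _ _ (Or.inr ⟨hE n, ?_⟩))
    rw [lrot, List.rotate_rotate]

theorem exists_main (E : Finset (List α)) (hE : S.EW ⊆ E) {P : List α}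
    (hP : P ∈ perms (univ : Finset α)) :
    ∃ C, S.x :: C ∈ perms (univ : Finset α) ∧ S.Main C ∧ S.Conn E P (S.x :: C) := by
  classical
  obtain ⟨P₁, P₂, rfl⟩ := List.append_of_mem (reach_mem hP S.x)
  have c1 := reach_swap S E P₁ (S.x :: P₂) hP
  have hP1 : S.x :: (P₂ ++ P₁) ∈ perms (univ : Finset α) :=
    perm_mem_perms hP
      (show (S.x :: P₂ ++ P₁).Perm (P₁ ++ S.x :: P₂) from List.perm_append_comm)
  generalize hC : P₂ ++ P₁ = C at *
  rw [List.cons_append, hC] at c1
  suffices h : ∃ D, S.x :: D ∈ perms (univ : Finset α) ∧ S.Main D ∧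
      S.Conn E (S.x :: C) (S.x :: D) by
    obtain ⟨D, hl, hl', h⟩ := h
    exact ⟨D, hl, hl', reach_trans S c1 h⟩
  by_cases hm : S.Main C
  · exact ⟨C, hP1, hm, reach_refl S _⟩
  have hn := reach_nodup_tail hP1
  obtain ⟨hq, hqA⟩ := reach_mover_mem S hP1
  have hlen := reach_three_le S hP1
  have hwC : S.w ∈ C := by
    rcases List.mem_cons.1 (reach_mem hP1 S.w) with h | h
    · exact absurd h.symm S.x_ne_w
    · exact h
  have hw : S.Wasted C := by
    by_contra h
    exact hm (Or.inl h)
  obtain ⟨hd, hfl⟩ := hw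
  set q := (S.info C).1 with hqdef
  have hqw : q ≠ S.w := fun h => S.w_notMem (h ▸ hqA)
  have hiC : S.info C = (q, false) := Prod.ext rfl hd
  -- membership of the rows
  have key : ∀ Q : List α, S.w :: Q ∈ perms (univ : Finset α) →
      (C.filter (· ∈ S.A)) ~r (Q.filter (· ∈ S.A)) →
      (∃ l : List α, Q ~r (S.x :: q :: l) ∨ Q ~r (q :: S.x :: l)) →
      ∀ k : ℕ, S.w :: Q.rotate k ∈ E := by
    intro Q hQ hf hl k
    apply hE
    have hiQ : S.info Q = (q, false) :=
      (reach_info_filt S hn (reach_A_tail S S.x_notMem hP1) hf).trans hiC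
    have hiQk : S.info (Q.rotate k) = (q, false) :=
      (reach_info_rot S (reach_nodup_tail hQ) (reach_A_tail S S.w_notMem hQ) ⟨k, rfl⟩).trans hiQ
    simp only [EW, Finset.mem_filter]
    refine ⟨perm_mem_perms hQ (List.Perm.cons _ (List.rotate_perm Q k)), Q.rotate k, rfl,
      by rw [hiQk], ?_⟩
    obtain ⟨l, hl⟩ := hl
    have hr : Q.rotate k ~r Q := List.IsRotated.symm ⟨k, rfl⟩
    rw [hiQk]
    rcases hl with hl | hl
    · exact ⟨l, Or.inl (hr.trans hl)⟩
    · exact ⟨l, Or.inr (hr.trans hl)⟩
  rcases hfl with hfl | hfl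
  · -- the mover is first
    obtain ⟨C', hC'⟩ : ∃ C', C = q :: C' := by
      rcases C with _ | ⟨a, C'⟩
      · simp at hlen
      · simp only [List.head?_cons, Option.some.injEq] at hfl
        exact ⟨C', by rw [hfl]⟩
    have hwC' : S.w ∈ C' := by
      rw [hC'] at hwC
      rcases List.mem_cons.1 hwC with h | h
      · exact absurd h.symm hqw
      · exact h
    obtain ⟨C₁, C₂, hC12⟩ := List.append_of_mem hwC'
    rw [hC12] at hC'
    have a1 : S.Conn E (S.x :: C) (S.w :: (C₂ ++ S.x :: q :: C₁)) := by
      have := reach_swap S E (S.x :: q :: C₁) (S.w :: C₂) (by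
        have : S.x :: q :: C₁ ++ S.w :: C₂ = S.x :: C := by rw [hC']; simp
        rw [this]
        exact hP1)
      have e : S.x :: q :: C₁ ++ S.w :: C₂ = S.x :: C := by rw [hC']; simp
      rw [e] at this
      simpa using this
    have hQ : S.w :: (C₂ ++ S.x :: q :: C₁) ∈ perms (univ : Finset α) := by
      have e : S.x :: q :: C₁ ++ S.w :: C₂ = S.x :: C := by rw [hC']; simp
      have : (S.w :: C₂ ++ S.x :: q :: C₁).Perm (S.x :: C) := by
        rw [← e]
        exact List.perm_append_comm
      exact perm_mem_perms hP1 this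
    have r1 : (C₂ ++ S.x :: q :: C₁) ~r (q :: (C₁ ++ C₂ ++ [S.x])) := by
      have := reach_isRotated_append (C₂ ++ [S.x]) (q :: C₁)
      simpa using this
    have hf : (C.filter (· ∈ S.A)) ~r ((C₂ ++ S.x :: q :: C₁).filter (· ∈ S.A)) := by
      have e1 : C.filter (· ∈ S.A) = (q :: C₁).filter (· ∈ S.A) ++ C₂.filter (· ∈ S.A) := by
        rw [hC', ← List.filter_append, ← List.cons_append, List.filter_append,
          List.filter_append, List.filter_cons_of_neg (a := S.w) (by simpa using S.w_notMem)]
      have e2 : (C₂ ++ S.x :: q :: C₁).filter (· ∈ S.A) =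
          C₂.filter (· ∈ S.A) ++ (q :: C₁).filter (· ∈ S.A) := by
        rw [List.filter_append, List.filter_cons_of_neg (by simpa using S.x_notMem)]
      rw [e1, e2]
      exact reach_isRotated_append _ _
    have a2 := reach_lrot S S.w (C₂ ++ S.x :: q :: C₁) (key _ hQ hf
      ⟨C₁ ++ C₂, Or.inl (by
        have := reach_isRotated_append C₂ (S.x :: q :: C₁)
        simpa using this)⟩) r1
    have hP2 : (S.w :: q :: (C₁ ++ C₂)) ++ [S.x] ∈ perms (univ : Finset α) := by
      have := reach_rot_mem hQ r1
      simpa using this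
    have a3 := reach_swap S E (S.w :: q :: (C₁ ++ C₂)) [S.x] hP2
    have hP3 : S.x :: (S.w :: q :: (C₁ ++ C₂)) ∈ perms (univ : Finset α) :=
      perm_mem_perms hP2 (List.perm_append_singleton _ _).symm
    have hi3 : S.info (S.w :: q :: (C₁ ++ C₂)) = (q, false) := by
      refine (reach_info_filt S hn (reach_A_tail S S.x_notMem hP1) ?_).trans hiC
      have e1 : C.filter (· ∈ S.A) = (S.w :: q :: (C₁ ++ C₂)).filter (· ∈ S.A) := by
        rw [hC', List.filter_cons_of_neg (a := S.w) (by simpa using S.w_notMem),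
          ← List.cons_append, ← List.cons_append, List.filter_append,
          List.filter_append, List.filter_cons_of_neg (a := S.w) (by simpa using S.w_notMem)]
      rw [e1]
    refine ⟨_, hP3, Or.inr ⟨S.w, q, C₁ ++ C₂, rfl, Or.inr hi3⟩,
      reach_trans S a1 (reach_trans S a2 ?_)⟩
    simpa using a3
  · -- the mover is last
    obtain ⟨C', hC'⟩ : ∃ C', C = C' ++ [q] := by
      rcases List.eq_nil_or_concat C with h | ⟨D, b, h⟩
      · rw [h] at hlen
        simp at hlen
      · rw [h, List.concat_eq_append, List.getLast?_append_of_ne_nil _ (by simp)] at hfl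
        simp only [List.getLast?_singleton, Option.some.injEq] at hfl
        refine ⟨D, ?_⟩
        rw [h, List.concat_eq_append, hfl]
    have hwC' : S.w ∈ C' := by
      rw [hC'] at hwC
      rcases List.mem_append.1 hwC with h | h
      · exact h
      · exact absurd (List.mem_singleton.1 h).symm hqw
    obtain ⟨C₁, C₂, hC12⟩ := List.append_of_mem hwC'
    rw [hC12] at hC'
    have e : S.x :: C₁ ++ (S.w :: C₂ ++ [q]) = S.x :: C := by rw [hC']; simp
    have a1 : S.Conn E (S.x :: C) (S.w :: (C₂ ++ q :: S.x :: C₁)) := by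
      have := reach_swap S E (S.x :: C₁) (S.w :: C₂ ++ [q]) (by rw [e]; exact hP1)
      rw [e] at this
      simpa using this
    have hQ : S.w :: (C₂ ++ q :: S.x :: C₁) ∈ perms (univ : Finset α) := by
      have h1 : (S.w :: C₂ ++ [q] ++ S.x :: C₁).Perm (S.x :: C) := by
        rw [← e]
        exact List.perm_append_comm
      have h2 := perm_mem_perms hP1 h1
      simpa using h2
    have r1 : (C₂ ++ q :: S.x :: C₁) ~r (S.x :: (C₁ ++ C₂ ++ [q])) := by
      have := reach_isRotated_append (C₂ ++ [q]) (S.x :: C₁)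
      simpa using this
    have hf : (C.filter (· ∈ S.A)) ~r ((C₂ ++ q :: S.x :: C₁).filter (· ∈ S.A)) := by
      have e1 : C.filter (· ∈ S.A) = C₁.filter (· ∈ S.A) ++ (C₂ ++ [q]).filter (· ∈ S.A) := by
        rw [hC', List.filter_append, List.filter_append,
          List.filter_cons_of_neg (by simpa using S.w_notMem), List.filter_append,
          List.append_assoc]
      have e2 : (C₂ ++ q :: S.x :: C₁).filter (· ∈ S.A) =
          (C₂ ++ [q]).filter (· ∈ S.A) ++ C₁.filter (· ∈ S.A) := by
        have e3 : C₂ ++ q :: S.x :: C₁ = (C₂ ++ [q]) ++ S.x :: C₁ := by simp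
        rw [e3, List.filter_append, List.filter_cons_of_neg (a := S.x)
          (by simpa using S.x_notMem)]
      rw [e1, e2]
      exact reach_isRotated_append _ _
    have a2 := reach_lrot S S.w (C₂ ++ q :: S.x :: C₁) (key _ hQ hf
      ⟨C₁ ++ C₂, Or.inr (by
        have := reach_isRotated_append C₂ (q :: S.x :: C₁)
        simpa using this)⟩) r1
    have hP2 : [S.w] ++ (S.x :: (C₁ ++ C₂ ++ [q])) ∈ perms (univ : Finset α) :=
      reach_rot_mem hQ r1
    have a3 := reach_swap S E [S.w] (S.x :: (C₁ ++ C₂ ++ [q])) hP2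
    have hP3 : S.x :: (C₁ ++ C₂ ++ [q, S.w]) ∈ perms (univ : Finset α) := by
      have h1 := perm_mem_perms hP2 (l' := S.x :: (C₁ ++ C₂ ++ [q]) ++ [S.w])
        List.perm_append_comm
      simpa using h1
    have hi3 : S.info (C₁ ++ C₂ ++ [q, S.w]) = (q, false) := by
      refine (reach_info_filt S hn (reach_A_tail S S.x_notMem hP1) ?_).trans hiC
      have e1 : C.filter (· ∈ S.A) = (C₁ ++ C₂ ++ [q, S.w]).filter (· ∈ S.A) := by
        have e3 : C₁ ++ C₂ ++ [q, S.w] = C₁ ++ (C₂ ++ [q]) ++ [S.w] := by simp
        rw [hC', List.filter_append, List.filter_append,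
          List.filter_cons_of_neg (by simpa using S.w_notMem), e3, List.filter_append,
          List.filter_append (l₁ := C₁), List.filter_append,
          List.filter_cons_of_neg (a := S.w) (by simpa using S.w_notMem), List.filter_nil,
          List.append_nil, List.append_assoc]
      rw [e1]
    have hne : C₁ ++ C₂ ≠ [] := by
      intro h
      have h3 := congrArg List.length h
      rw [hC'] at hlen
      simp only [List.length_append, List.length_nil, List.length_cons] at h3 hlen
      omega
    refine ⟨_, hP3, ?_, reach_trans S a1 (reach_trans S a2 ?_)⟩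
    · left
      rintro ⟨_, h | h⟩
      · rw [hi3] at h
        obtain ⟨y, t, hyt⟩ := List.exists_cons_of_ne_nil hne
        rw [hyt] at h
        simp only [List.cons_append, List.head?_cons, Option.some.injEq] at h
        have hn3 := reach_nodup_tail hP3
        rw [hyt, h, List.cons_append] at hn3
        exact (List.nodup_cons.1 hn3).1 (by simp)
      · rw [hi3, List.getLast?_append_of_ne_nil _ (by simp)] at h
        simp only [List.getLast?_cons_cons, List.getLast?_singleton, Option.some.injEq] at h
        exact hqw h.symm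
    · simpa using a3

theorem conn_row (E : Finset (List α)) (l₁ l₂ : List α)
    (hP : S.x :: (l₁ ++ S.w :: l₂) ∈ perms (univ : Finset α))
    (hE : ∀ k : ℕ, S.w :: ((S.x :: (l₁ ++ l₂)).rotate k) ∈ E) :
    S.Conn E (S.x :: (l₁ ++ S.w :: l₂)) (S.x :: (l₁ ++ l₂ ++ [S.w])) := by
  have e : S.x :: l₁ ++ (S.w :: l₂) = S.x :: (l₁ ++ S.w :: l₂) := by simp
  have a1 := reach_swap S E (S.x :: l₁) (S.w :: l₂) (by rw [e]; exact hP)
  rw [e] at a1
  have r0 : (S.x :: (l₁ ++ l₂)) ~r (l₂ ++ S.x :: l₁) := by
    have := reach_isRotated_append (S.x :: l₁) l₂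
    simpa using this
  have a2 := reach_lrot S S.w _ hE r0
  have hP2 : [S.w] ++ (S.x :: (l₁ ++ l₂)) ∈ perms (univ : Finset α) := by
    apply perm_mem_perms hP
    refine (List.Perm.swap _ _ _).trans (List.Perm.cons _ ?_)
    exact List.perm_middle.symm
  have a4 := reach_swap S E [S.w] (S.x :: (l₁ ++ l₂)) hP2
  have b1 : S.Conn E (S.x :: (l₁ ++ S.w :: l₂)) (S.w :: (l₂ ++ S.x :: l₁)) := by
    simpa using a1
  have b4 : S.Conn E (S.w :: S.x :: (l₁ ++ l₂)) (S.x :: (l₁ ++ l₂ ++ [S.w])) := by
    simpa using a4
  exact reach_trans S b1 (reach_trans S (reach_symm S a2) b4)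

end Rule

end Pool.Agent.Lib.MP_e0d433_co
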