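import Pool.Agent.Lib.MP_e0d433_co.F.Step
import Pool.Agent.Lib.MP_e0d433_co.F.Cnt
import Pool.Agent.Lib.MP_e0d433_co.F.Cnt2
import Pool.Agent.Lib.MP_e0d433_co.F.Reach

/-!
# MP_e0d433_co, F: the superpermutation of a rule
-/

set_option autoImplicit false

namespace Pool.Agent.Lib.MP_e0d433_co

open Finset

namespace Rule

variable {α : Type*} [DecidableEq α] [Fintype α] (S : Rule α)

/-- The cyclic word `D` can be reached from the main word `C`. -/
def Acc (E : Finset (List α)) (C D : List α) : Prop :=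
  S.x :: D ∈ perms (univ : Finset α) ∧
    ∃ D', D ~r D' ∧ S.Main D' ∧ S.Conn E (S.x :: C) (S.x :: D')

theorem acc_refl (E : Finset (List α)) {C : List α} (hP : S.x :: C ∈ perms (univ : Finset α))
    (hm : S.Main C) : S.Acc E C C :=
  ⟨hP, C, List.IsRotated.refl C, hm, reach_refl S _⟩

theorem acc_rot {E : Finset (List α)} {C D D₂ : List α} (h : S.Acc E C D) (hr : D ~r D₂) :
    S.Acc E C D₂ := by
  obtain ⟨hP, D', h1, h2, h3⟩ := h
  exact ⟨reach_rot_mem hP hr, D', hr.symm.trans h1, h2, h3⟩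

theorem acc_step {E : Finset (List α)} {C : List α} {b c : α} {r : List α}
    (h : S.Acc E C (b :: c :: r))
    (hi : S.info (b :: c :: r) = (b, true) ∨ S.info (b :: c :: r) = (c, false)) :
    S.Acc E C (c :: b :: r) := by
  obtain ⟨hP, D', h1, h2, h3⟩ := h
  obtain ⟨m1, m2, c1⟩ := reach_exit S E b c r hP hi
  have c0 := reach_main S E hP h1 m1 h2
  refine ⟨perm_mem_perms hP (List.Perm.cons _ (List.Perm.swap b c r)), r ++ [c, b], ?_, m2, ?_⟩
  · have := reach_isRotated_append [c, b] r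
    simpa using this
  · exact reach_trans S h3 (reach_trans S (reach_symm S c0) c1)

theorem acc_conn {E : Finset (List α)} {C D : List α} (h : S.Acc E C D) (ho : S.Out D) :
    S.Conn E (S.x :: C) (S.x :: D) := by
  obtain ⟨hP, D', h1, h2, h3⟩ := h
  exact reach_trans S h3 (reach_symm S (reach_main S E hP h1 (Or.inr ho) h2))

theorem bound (hn : 3 ≤ Fintype.card α) (V : Finset (List α))
    (hV : ∀ l ∈ V, S.x :: (l ++ [S.w]) ∈ perms (univ : Finset α))
    (hreach : ∀ C, S.x :: C ∈ perms (univ : Finset α) → S.Main C → ∃ l₁ l₂ : List α,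
      l₁ ++ l₂ ∈ V ∧ S.Out (l₁ ++ S.w :: l₂) ∧ S.Acc (S.EW ∪ S.EV V) C (l₁ ++ S.w :: l₂)) :
    ∃ wd : List α, (∀ P ∈ perms (univ : Finset α), P <:+: wd) ∧
      wd.length ≤ (Fintype.card α).factorial + (Fintype.card α - 1).factorial +
        (Fintype.card α - 2).factorial + 2 * S.cntM + 2 * (Fintype.card α - 1) * V.card := by
  classical
  set n := Fintype.card α with hn'
  obtain ⟨wd, hwd, hlen⟩ := superword n (by omega) (perms (univ : Finset α))
    (fun P hP => by rw [length_of_mem_perms hP, card_univ])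
    S.step S.bijOn_step S.md
    (fun P _ => ⟨S.md_pos P, (S.md_le P).trans hn⟩) (fun P _ => S.drop_md_prefix P)
    (S.EW ∪ S.EV V) (S.KV V)
    (union_subset (filter_subset _ _) (filter_subset _ _))
    (by
      intro P hP
      rcases mem_union.1 hP with h | h
      · exact mem_union_left _ (S.lrot_EW P h)
      · exact mem_union_right _ (S.lrot_EV V P h))
    (by
      intro P hP
      obtain ⟨l, hl, rfl⟩ := mem_image.1 hP
      exact hV l hl)
    (by
      intro P hP
      obtain ⟨C, hC, hm, hc⟩ := S.exists_main (S.EW ∪ S.EV V) subset_union_left hP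
      obtain ⟨l₁, l₂, hl, ho, ha⟩ := hreach C hC hm
      have h1 := S.acc_conn ha ho
      have h2 := S.conn_row (S.EW ∪ S.EV V) l₁ l₂ ha.1 (by
        intro k
        refine mem_union_right _ ?_
        rw [EV, mem_filter]
        refine ⟨?_, _, l₁ ++ l₂, rfl, List.IsRotated.symm ⟨k, rfl⟩, hl⟩
        refine perm_mem_perms ha.1 ?_
        refine (List.Perm.cons _ (List.rotate_perm _ _)).trans ?_
        refine (List.Perm.swap _ _ _).trans (List.Perm.cons _ ?_)
        exact List.perm_middle.symm)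
      exact ⟨S.x :: (l₁ ++ l₂ ++ [S.w]), mem_image.2 ⟨l₁ ++ l₂, hl, rfl⟩,
        reach_trans S hc (reach_trans S h1 h2)⟩)
  refine ⟨wd, hwd, ?_⟩
  have h1 := S.sum_md
  have h2 := S.card_EW
  have h3 := S.card_EV V
  have h4 := S.card_KV V
  have h5 : (S.EW ∪ S.EV V).card ≤ S.EW.card + (S.EV V).card := card_union_le _ _
  have h8 := S.cntW_eq
  rw [← hn'] at *
  have h6 : (n - 1) * (S.KV V).card ≤ (n - 1) * V.card := Nat.mul_le_mul_left _ h4
  have h7 : 2 * (n - 1) * V.card = (n - 1) * V.card + (n - 1) * V.card := by ring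
  have h9 : 2 * (n - 1) * S.cntM = 2 * ((n - 2) * S.cntM) + 2 * S.cntM := by
    obtain ⟨m, hm⟩ : ∃ m, n = m + 2 := ⟨n - 2, by omega⟩
    rw [hm]
    simp only [Nat.add_sub_cancel, show m + 2 - 1 = m + 1 by omega]
    ring
  rw [h7]
  omega

end Rule

end Pool.Agent.Lib.MP_e0d433_co
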