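import Pool.Agent.Lib.MP_e0d433_co.F.Sim

/-!
# MP_e0d433_co, F: the two counts for a run system on `m` letters
-/

set_option autoImplicit false

namespace Pool.Agent.Lib.MP_e0d433_co

open Finset

section aux

variable {m n : ℕ}

theorem cnt3_pr_filter {C : List (Fin n)} {A : Finset (Fin n)}
    (hA : ∀ a ∈ C, a.val < m → a ∈ A) :
    pr m (C.filter (· ∈ A)) = pr m C := by
  induction C with
  | nil => rfl
  | cons a C ih =>
    have ih := ih (fun b hb => hA b (List.mem_cons_of_mem _ hb))
    by_cases ha : a ∈ A
    · rw [List.filter_cons_of_pos (by simpa using ha)]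
      by_cases h : a.val < m
      · rw [pr_cons_of_lt h, pr_cons_of_lt h, ih]
      · rw [pr_cons_of_not h, pr_cons_of_not h, ih]
    · have h : ¬ a.val < m := fun h => ha (hA a (List.mem_cons_self ..) h)
      rw [List.filter_cons_of_neg (by simpa using ha), pr_cons_of_not h, ih]

theorem cnt3_pr_map {C : List (Fin n)} (hC : ∀ a ∈ C, a.val < m) :
    (pr m C).map Fin.val = C.map Fin.val := by
  induction C with
  | nil => rfl
  | cons a C ih =>
    have ih := ih (fun b hb => hC b (List.mem_cons_of_mem _ hb))
    rw [pr_cons_of_lt (hC a (List.mem_cons_self ..)), List.map_cons, List.map_cons, ih]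

theorem cnt3_pr_inj {C D : List (Fin n)} (hC : ∀ a ∈ C, a.val < m) (hD : ∀ a ∈ D, a.val < m)
    (h : pr m C = pr m D) : C = D := by
  have h1 := cnt3_pr_map hC
  have h2 := cnt3_pr_map hD
  rw [h] at h1
  have h3 := h1.symm.trans h2
  exact (List.map_injective_iff.2 Fin.val_injective) h3

theorem cnt3_length {S : Finset (Fin n)} {l : List (Fin n)} (h : l ∈ perms S) :
    l.length = S.card := length_of_mem_perms h

/-- Counting words by their restriction to the letters of `A`. -/
theorem cnt3_restrict {A S : Finset (Fin n)} (hAS : A ⊆ S) (hA : ∀ a ∈ S, a.val < m → a ∈ A)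
    (hA' : ∀ a ∈ A, a.val < m) (F : List (Fin m) → Prop) [DecidablePred F] (Z : Finset (List (Fin m)))
    (hZ : ∀ l ∈ perms A, F (pr m l) → pr m l ∈ Z) :
    ((perms S).filter (fun l => F (pr m l))).card * A.card.factorial ≤
      S.card.factorial * Z.card := by
  have h1 := card_perms_restrict hAS (fun l => F (pr m l))
  have h2 : (perms S).filter (fun l => F (pr m (l.filter (· ∈ A)))) =
      (perms S).filter (fun l => F (pr m l)) := by
    apply filter_congr
    intro l hl
    rw [cnt3_pr_filter (fun a ha => hA a ((mem_iff_of_mem_perms hl a).1 ha))]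
  have h3 : ((perms S).filter (fun l => F (pr m l))).card * A.card.factorial =
      S.card.factorial * ((perms A).filter (fun l => F (pr m l))).card := by
    rw [← h1, ← h2]
  rw [h3]
  apply Nat.mul_le_mul le_rfl
  apply card_le_card_of_injOn (fun l => pr m l)
  · intro l hl
    rw [mem_coe, mem_filter] at hl
    exact mem_coe.2 (hZ l hl.1 hl.2)
  · intro l hl l' hl' h
    rw [mem_coe, mem_filter] at hl hl'
    exact cnt3_pr_inj (fun a ha => hA' a ((mem_iff_of_mem_perms hl.1 a).1 ha))
      (fun a ha => hA' a ((mem_iff_of_mem_perms hl'.1 a).1 ha)) h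

theorem cnt3_card_act [NeZero m] (h : m ≤ n) : (Base.act m n).card = m := by
  have : (Base.act m n).card = (univ : Finset (Fin m)).card := by
    symm
    apply card_bij (fun (i : Fin m) _ => Fin.castLE h i)
    · intro i _
      rw [Base.mem_act]
      simp
    · intro i _ j _ hij
      exact Fin.castLE_injective h hij
    · intro a ha
      rw [Base.mem_act] at ha
      exact ⟨⟨a.val, ha⟩, mem_univ _, by apply Fin.ext; simp⟩
  rw [this, card_univ, Fintype.card_fin]

theorem cnt3_cons_mem {S : Finset (Fin n)} {a : Fin n} {l : List (Fin n)}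
    (h : a :: l ∈ perms S) : a ∈ S ∧ l ∈ perms (S \ {a}) := by
  have hn : (a :: l).Nodup := nodup_of_mem_perms h
  have hm := mem_iff_of_mem_perms h
  refine ⟨(hm a).1 (List.mem_cons_self ..), ?_⟩
  rw [mem_perms]
  refine ⟨(List.nodup_cons.1 hn).2, ?_⟩
  ext b
  rw [List.mem_toFinset, mem_sdiff, mem_singleton, ← hm b, List.mem_cons]
  constructor
  · intro hb
    exact ⟨Or.inr hb, fun e => (List.nodup_cons.1 hn).1 (e ▸ hb)⟩
  · rintro ⟨rfl | hb, h2⟩
    · exact absurd rfl h2
    · exact hb

theorem cnt3_act_sub [NeZero m] (h : m + 2 ≤ n) :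
    Base.act m n ⊆ (univ \ {(⟨n - 1, by omega⟩ : Fin n), ⟨n - 2, by omega⟩} : Finset (Fin n)) := by
  intro a ha
  rw [Base.mem_act] at ha
  rw [mem_sdiff, mem_insert, mem_singleton]
  refine ⟨mem_univ _, ?_⟩
  rintro (rfl | rfl)
  · simp only at ha; omega
  · simp only at ha; omega

theorem cnt3_card_T (h : m + 2 ≤ n) :
    (univ \ {(⟨n - 1, by omega⟩ : Fin n), ⟨n - 2, by omega⟩} : Finset (Fin n)).card + 2 = n := by
  have h1 : ((⟨n - 1, by omega⟩ : Fin n)) ≠ ⟨n - 2, by omega⟩ := by
    intro h
    have := congrArg Fin.val h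
    simp only at this
    omega
  rw [card_sdiff_of_subset (subset_univ _), card_pair h1, card_univ, Fintype.card_fin]
  omega

end aux

namespace Base

variable {m n : ℕ} [NeZero m] (B : Base m) (hmn : m + 2 ≤ n)

/-- The left going words. -/
theorem cntM_le (Z : Finset (List (Fin m)))
    (hZ : ∀ l : List (Fin m), (0 :: l).Nodup → (0 :: l).length = m →
      (B.g (0 :: l)).2 = false → l ∈ Z) :
    (B.rule hmn).cntM * (m - 1).factorial ≤ (n - 3).factorial * Z.card := by
  classical
  set T : Finset (Fin n) := univ \ {(B.rule hmn).x, (B.rule hmn).w} with hT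
  have hTx : ∀ C ∈ perms T, ∀ a ∈ act m n, a ∈ C := by
    intro C hC a ha
    rw [mem_iff_of_mem_perms hC, hT]
    exact cnt3_act_sub hmn ha
  have hrot : ∀ C ∈ perms T, ∀ k, (B.rule hmn).info (C.rotate k) = (B.rule hmn).info C := by
    intro C hC k
    exact B.inf_isRotated (hmn := hmn) (nodup_of_mem_perms hC) (hTx C hC) ⟨k, rfl⟩
  set z : Fin n := ⟨0, by omega⟩ with hz
  have hm0 : 0 < m := Nat.pos_of_ne_zero (NeZero.ne m)
  have hza : z ∈ act m n := by rw [mem_act]; exact hm0
  have hzT : z ∈ T := by rw [hT]; exact cnt3_act_sub hmn hza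
  have h1 : (B.rule hmn).cntM ≤ ((perms T).filter
      (fun C => C.head? = some z ∧ ((B.rule hmn).info C).2 = false)).card := by
    have := Rule.CountF_anchor T (fun C => ((B.rule hmn).info C).1) (fun _ => z)
      (fun C => ((B.rule hmn).info C).2 = false)
      (fun C hC k => by rw [hrot C hC k]) (fun _ _ _ => rfl)
      (fun C hC k h => by rw [hrot C hC k]; exact h) (fun _ _ => hzT)
    refine le_trans (le_of_eq ?_) this
    rw [Rule.cntM]
  have h2 : ((perms T).filter
      (fun C => C.head? = some z ∧ ((B.rule hmn).info C).2 = false)).card ≤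
      ((perms (T \ {z})).filter (fun l => (B.g (0 :: pr m l)).2 = false)).card := by
    apply card_le_card_of_injOn (fun C => C.tail)
    · intro C hC
      rw [mem_coe, mem_filter] at hC
      obtain ⟨hC, hh, hf⟩ := hC
      cases C with
      | nil => simp at hh
      | cons a l =>
        simp only [List.head?_cons, Option.some.injEq] at hh
        subst hh
        rw [mem_coe, mem_filter]
        refine ⟨(cnt3_cons_mem hC).2, ?_⟩
        have h3 : ((B.rule hmn).info (z :: l)).2 = (B.g (anch (pr m (z :: l)))).2 := rfl
        rw [h3, pr_cons_of_lt (m := m) (a := z) hm0] at hf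
        have h4 : (⟨z.val, hm0⟩ : Fin m) = 0 := by
          apply Fin.ext
          simp [hz]
        rw [h4, anch_cons] at hf
        exact hf
    · intro C hC D hD h
      rw [mem_coe, mem_filter] at hC hD
      cases C with
      | nil => simp at hC
      | cons a l =>
        cases D with
        | nil => simp at hD
        | cons b l' =>
          simp only [List.head?_cons, Option.some.injEq] at hC hD
          simp only [List.tail_cons] at h
          rw [hC.2.1, hD.2.1, h]
  have hcT : (T \ {z}).card = n - 3 := by
    rw [card_sdiff_of_subset (by simpa using hzT), card_singleton]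
    have := cnt3_card_T (n := n) hmn
    have e : T.card + 2 = n := this
    omega
  have hcA : (act m n \ {z}).card = m - 1 := by
    rw [card_sdiff_of_subset (by simpa using hza), card_singleton, cnt3_card_act (by omega)]
  have h3 := cnt3_restrict (m := m) (A := act m n \ {z}) (S := T \ {z})
    (sdiff_subset_sdiff (by rw [hT]; exact cnt3_act_sub hmn) le_rfl)
    (by
      intro a ha hm
      rw [mem_sdiff] at ha ⊢
      exact ⟨mem_act.2 hm, ha.2⟩)
    (by
      intro a ha
      exact mem_act.1 (mem_sdiff.1 ha).1)
    (fun l => (B.g (0 :: l)).2 = false) Z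
    (by
      intro l hl hf
      have hn := nodup_of_mem_perms hl
      have hmem := mem_iff_of_mem_perms hl
      have hzl : z ∉ l := fun h => by
        have := (hmem z).1 h
        simp at this
      have hn' : (z :: l).Nodup := List.nodup_cons.2 ⟨hzl, hn⟩
      have hpr : pr m (z :: l) = 0 :: pr m l := by
        rw [pr_cons_of_lt (m := m) (a := z) hm0]
        congr 1
      apply hZ
      · rw [← hpr]; exact pr_nodup hn'
      · rw [← hpr]
        apply pr_length hn'
        intro i
        refine ⟨⟨i.val, by omega⟩, ?_, rfl⟩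
        rw [List.mem_cons]
        by_cases hi : (⟨i.val, by omega⟩ : Fin n) = z
        · exact Or.inl hi
        · right
          rw [hmem, mem_sdiff, mem_singleton]
          exact ⟨mem_act.2 i.isLt, hi⟩
      · exact hf)
  rw [hcT, hcA] at h3
  exact le_trans (Nat.mul_le_mul (h1.trans h2) le_rfl) h3

/-- The representatives. -/
theorem VV_card : (B.VV hmn).card * (m - 2).factorial ≤ B.U.length * (n - 4).factorial := by
  classical
  have htwo := B.two_le
  set T : Finset (Fin n) := univ \ {(B.rule hmn).x, (B.rule hmn).w} with hT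
  have hcard : ∀ t : Fin m × Fin m × List (Fin m),
      ((perms T).filter (fun l => ∃ l' : List (Fin n),
        l = Fin.castLE (by omega) t.1 :: Fin.castLE (by omega) t.2.1 :: l' ∧
          pr m l' = t.2.2)).card * (m - 2).factorial ≤ (n - 4).factorial := by
    intro t
    set y : Fin n := Fin.castLE (by omega) t.1 with hy
    set c : Fin n := Fin.castLE (by omega) t.2.1 with hc
    have hym : y ∈ act m n := by rw [mem_act, hy]; simp
    have hcm : c ∈ act m n := by rw [mem_act, hc]; simp
    have hyT : y ∈ T := by rw [hT]; exact cnt3_act_sub hmn hym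
    have hcT' : c ∈ T := by rw [hT]; exact cnt3_act_sub hmn hcm
    by_cases hyc : y = c
    · have : (perms T).filter (fun l => ∃ l' : List (Fin n), l = y :: c :: l' ∧
          pr m l' = t.2.2) = ∅ := by
        rw [filter_eq_empty_iff]
        rintro l hl ⟨l', rfl, _⟩
        have := nodup_of_mem_perms hl
        rw [hyc] at this
        simp at this
      rw [this]
      simp
    · have h2 : ((perms T).filter (fun l => ∃ l' : List (Fin n), l = y :: c :: l' ∧
          pr m l' = t.2.2)).card ≤
          ((perms ((T \ {y}) \ {c})).filter (fun l => pr m l = t.2.2)).card := by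
        apply card_le_card_of_injOn (fun C => C.tail.tail)
        · intro C hC
          rw [mem_coe, mem_filter] at hC
          obtain ⟨hC, l', rfl, hf⟩ := hC
          rw [mem_coe, mem_filter]
          exact ⟨(cnt3_cons_mem (cnt3_cons_mem hC).2).2, hf⟩
        · intro C hC D hD h
          rw [mem_coe, mem_filter] at hC hD
          obtain ⟨hC, l', rfl, hf⟩ := hC
          obtain ⟨hD, l'', rfl, hf'⟩ := hD
          simp only [List.tail_cons] at h
          rw [h]
      have hcT2 : ((T \ {y}) \ {c}).card = n - 4 := by
        rw [card_sdiff_of_subset, card_sdiff_of_subset, card_singleton, card_singleton]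
        · have := cnt3_card_T (n := n) hmn
          have e : T.card + 2 = n := this
          omega
        · simpa using hyT
        · rw [singleton_subset_iff, mem_sdiff, mem_singleton]
          exact ⟨hcT', fun h => hyc h.symm⟩
      have hcA : ((act m n \ {y}) \ {c}).card = m - 2 := by
        rw [card_sdiff_of_subset, card_sdiff_of_subset, card_singleton, card_singleton,
          cnt3_card_act (by omega)]
        · omega
        · simpa using hym
        · rw [singleton_subset_iff, mem_sdiff, mem_singleton]
          exact ⟨hcm, fun h => hyc h.symm⟩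
      have h3 := cnt3_restrict (m := m) (A := (act m n \ {y}) \ {c}) (S := (T \ {y}) \ {c})
        (sdiff_subset_sdiff (sdiff_subset_sdiff (by rw [hT]; exact cnt3_act_sub hmn) le_rfl) le_rfl)
        (by
          intro a ha hm
          rw [mem_sdiff, mem_sdiff] at ha ⊢
          exact ⟨⟨mem_act.2 hm, ha.1.2⟩, ha.2⟩)
        (by
          intro a ha
          exact mem_act.1 (mem_sdiff.1 (mem_sdiff.1 ha).1).1)
        (fun l => l = t.2.2) {t.2.2}
        (by
          intro l _ hf
          rw [mem_singleton]
          exact hf)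
      rw [hcT2, hcA, card_singleton, mul_one] at h3
      exact le_trans (Nat.mul_le_mul h2 le_rfl) h3
  have hsub : B.VV hmn ⊆ B.U.toFinset.biUnion (fun t =>
      (perms T).filter (fun l => ∃ l' : List (Fin n),
        l = Fin.castLE (by omega) t.1 :: Fin.castLE (by omega) t.2.1 :: l' ∧
          pr m l' = t.2.2)) := by
    intro l hl
    unfold VV at hl
    rw [mem_filter] at hl
    obtain ⟨hl, t, ht, h⟩ := hl
    rw [mem_biUnion]
    exact ⟨t, List.mem_toFinset.2 ht, mem_filter.2 ⟨hl, h⟩⟩
  calc (B.VV hmn).card * (m - 2).factorial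
      ≤ (∑ t ∈ B.U.toFinset, ((perms T).filter (fun l => ∃ l' : List (Fin n),
        l = Fin.castLE (by omega) t.1 :: Fin.castLE (by omega) t.2.1 :: l' ∧
          pr m l' = t.2.2)).card) * (m - 2).factorial :=
        Nat.mul_le_mul ((card_le_card hsub).trans card_biUnion_le) le_rfl
    _ = ∑ t ∈ B.U.toFinset, ((perms T).filter (fun l => ∃ l' : List (Fin n),
        l = Fin.castLE (by omega) t.1 :: Fin.castLE (by omega) t.2.1 :: l' ∧
          pr m l' = t.2.2)).card * (m - 2).factorial := sum_mul _ _ _
    _ ≤ ∑ _t ∈ B.U.toFinset, (n - 4).factorial := sum_le_sum (fun t _ => hcard t)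
    _ = B.U.toFinset.card * (n - 4).factorial := by rw [sum_const, smul_eq_mul]
    _ ≤ B.U.length * (n - 4).factorial := Nat.mul_le_mul (List.toFinset_card_le _) le_rfl

theorem VV_mem : ∀ l ∈ B.VV hmn,
    (B.rule hmn).x :: (l ++ [(B.rule hmn).w]) ∈ perms (univ : Finset (Fin n)) := by
  classical
  intro l hl
  unfold VV at hl
  rw [mem_filter] at hl
  have h := hl.1
  rw [mem_perms] at h ⊢
  obtain ⟨hn, ht⟩ := h
  have hx : (B.rule hmn).x ∉ l := by
    rw [← List.mem_toFinset, ht]; simp
  have hw : (B.rule hmn).w ∉ l := by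
    rw [← List.mem_toFinset, ht]; simp
  have hxw := (B.rule hmn).x_ne_w
  constructor
  · rw [List.nodup_cons, List.nodup_append]
    refine ⟨?_, hn, List.nodup_singleton _, ?_⟩
    · rw [List.mem_append, List.mem_singleton]
      rintro (h | h)
      · exact hx h
      · exact hxw h
    · intro a ha b hb
      rw [List.mem_singleton] at hb
      rintro rfl
      exact hw (hb ▸ ha)
  · ext a
    rw [List.mem_toFinset, List.mem_cons, List.mem_append, List.mem_singleton,
      ← List.mem_toFinset, ht]
    simp only [mem_sdiff, mem_univ, true_and, mem_insert, mem_singleton, iff_true]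
    tauto

include hmn in
/-- The superpermutation of a run system on `m` letters. -/
theorem bound (Z : Finset (List (Fin m)))
    (hZ : ∀ l : List (Fin m), (0 :: l).Nodup → (0 :: l).length = m →
      (B.g (0 :: l)).2 = false → l ∈ Z) :
    ∃ (wd : List (Fin n)) (c v : ℕ), (∀ P ∈ perms (univ : Finset (Fin n)), P <:+: wd) ∧
      c * (m - 1).factorial ≤ (n - 3).factorial * Z.card ∧
      v * (m - 2).factorial ≤ B.U.length * (n - 4).factorial ∧
      wd.length ≤ n.factorial + (n - 1).factorial + (n - 2).factorial + 2 * c +
        2 * (n - 1) * v := by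
  have htwo := B.two_le
  obtain ⟨wd, h1, h2⟩ := (B.rule hmn).bound (by rw [Fintype.card_fin]; omega) (B.VV hmn)
    (B.VV_mem hmn) (fun C hC hm => B.reach hmn hC hm)
  rw [Fintype.card_fin] at h2
  exact ⟨wd, _, _, h1, B.cntM_le hmn Z hZ, B.VV_card hmn, h2⟩

end Base

end Pool.Agent.Lib.MP_e0d433_co
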