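import Pool.Agent.Lib.MP_e0d433_co.Merge

/-!
# MP_e0d433_co: exit rules without anchor

The same rules as in `Lib/MP_e0d433_co/Sys.lean`, but every active letter may move (there is no
anchor `z`).  A rule prescribes how the word `x :: C` is left: `C` is read as a cyclic word, `info C`
is a pair (letter, direction), depending only on the cyclic word `C` restricted to the letters of `A`
(`true` = right, `false` = left).
-/

set_option autoImplicit false

namespace Pool.Agent.Lib.MP_e0d433_co

open Finset

/-- An exit rule. -/
structure Rule (α : Type*) [DecidableEq α] where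
  /-- the travelling letter -/
  x : α
  /-- a passive letter, used for merging -/
  w : α
  /-- the active letters -/
  A : Finset α
  /-- the mover and its direction (`true` = right) -/
  info : List α → α × Bool
  x_notMem : x ∉ A
  w_notMem : w ∉ A
  x_ne_w : x ≠ w
  two_le : 2 ≤ A.card
  filt : ∀ C : List α, info (C.filter (· ∈ A)) = info C
  rot : ∀ C : List α, C.Nodup → (∀ a ∈ A, a ∈ C) → info (C.rotate 1) = info C
  mem : ∀ C : List α, C.Nodup → (∀ a ∈ A, a ∈ C) → (info C).1 ∈ A
  switch : ∀ (b c : α) (l : List α), (b :: c :: l).Nodup → (∀ a ∈ A, a ∈ b :: c :: l) →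
    (info (b :: c :: l) = (b, true) ∨ info (b :: c :: l) = (c, false)) →
    (info (c :: b :: l) = (b, true) ∨ info (c :: b :: l) = (c, false))

namespace Rule

variable {α : Type*} [DecidableEq α] (S : Rule α)

/-- The cyclic word is left from here: `C = b :: c :: l` and `b` moves right or `c` moves left. -/
def Out (C : List α) : Prop :=
  ∃ (b c : α) (l : List α), C = b :: c :: l ∧ (S.info C = (b, true) ∨ S.info C = (c, false))

/-- The left-moving letter is the first or the last letter of `C`. -/
def Wasted (C : List α) : Prop :=
  (S.info C).2 = false ∧ (C.head? = some (S.info C).1 ∨ C.getLast? = some (S.info C).1)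

open scoped Classical in
/-- Number of letters to be written after `x :: C`. -/
noncomputable def mode (C : List α) : ℕ :=
  if S.Out C then 3 else if S.Wasted C then 1 else 2

/-- Number of letters to be written after the word `P`. -/
noncomputable def md (P : List α) : ℕ :=
  if P.head? = some S.x then S.mode P.tail else 1

/-- The successor of the word `P`. -/
noncomputable def step (P : List α) : List α :=
  P.drop (S.md P) ++ (P.take (S.md P)).reverse

/-- `C` is `Out` or not `Wasted`. -/
def Main (C : List α) : Prop := ¬ S.Wasted C ∨ S.Out C

variable [Fintype α]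

open scoped Classical in
/-- The words `w :: Q` such that the mover `q` of `Q` moves left and `x` is adjacent to `q` in the
cyclic word `Q`. -/
noncomputable def EW : Finset (List α) :=
  (perms (univ : Finset α)).filter (fun P => ∃ Q : List α, P = S.w :: Q ∧ (S.info Q).2 = false ∧
    ∃ l : List α, Q ~r (S.x :: (S.info Q).1 :: l) ∨ Q ~r ((S.info Q).1 :: S.x :: l))

open scoped Classical in
/-- The words `w :: Q` with `Q` a rotation of `x l`, `l ∈ V`. -/
noncomputable def EV (V : Finset (List α)) : Finset (List α) :=
  (perms (univ : Finset α)).filter (fun P => ∃ Q l : List α, P = S.w :: Q ∧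
    Q ~r (S.x :: l) ∧ l ∈ V)

/-- The words `x l w` with `l ∈ V`. -/
noncomputable def KV (V : Finset (List α)) : Finset (List α) :=
  V.image (fun l => S.x :: (l ++ [S.w]))

/-- The equivalence generated by the steps and the rows. -/
def Conn (E : Finset (List α)) (P Q : List α) : Prop :=
  Relation.EqvGen (MStep S.step (perms (univ : Finset α)) E) P Q

/-- Number of left going cyclic words without `x` and `w`, anchored at the mover. -/
def cntM : ℕ :=
  ((perms (univ \ {S.x, S.w} : Finset α)).filter
    (fun l => l.head? = some (S.info l).1 ∧ (S.info l).2 = false)).card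

/-- The cyclic words `C` and `D` (without `x`) are connected. -/
def G (E : Finset (List α)) (C D : List α) : Prop :=
  ∃ C' D' : List α, C ~r C' ∧ D ~r D' ∧ S.Main C' ∧ S.Main D' ∧
    S.Conn E (S.x :: C') (S.x :: D')

end Rule

end Pool.Agent.Lib.MP_e0d433_co
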