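import Mathlib

/-!
# MP_e0d433_co, F: enumeration of the words without repetition
-/

set_option autoImplicit false

namespace Pool.Agent.Lib.MP_e0d433_co

/-- Put one new letter in front. -/
def ext {m : ℕ} (L : List (List (Fin m))) : List (List (Fin m)) :=
  L.flatMap (fun l => (List.finRange m).filterMap (fun a => if a ∈ l then none else some (a :: l)))

theorem mem_ext {m : ℕ} {L : List (List (Fin m))} {a : Fin m} {l : List (Fin m)} (hl : l ∈ L)
    (ha : a ∉ l) : a :: l ∈ ext L := by
  unfold ext
  rw [List.mem_flatMap]
  refine ⟨l, hl, ?_⟩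
  rw [List.mem_filterMap]
  exact ⟨a, List.mem_finRange a, by rw [if_neg ha]⟩

/-- The words of length `k` without repetition. -/
def en (m : ℕ) : ℕ → List (List (Fin m))
  | 0 => [[]]
  | k + 1 => ext (en m k)

theorem mem_en {m : ℕ} : ∀ (k : ℕ) (l : List (Fin m)), l.Nodup → l.length = k → l ∈ en m k := by
  intro k
  induction k with
  | zero =>
    intro l _ h
    rw [List.length_eq_zero_iff] at h
    subst h
    simp [en]
  | succ k ih =>
    intro l hn hk
    cases l with
    | nil => simp at hk
    | cons a l =>
      rw [List.nodup_cons] at hn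
      exact mem_ext (ih l hn.2 (by simpa using hk)) hn.1

end Pool.Agent.Lib.MP_e0d433_co
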