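import Pool.Agent.Lib.MP_e0d433_co.F.Cnt3
import Pool.Agent.Lib.MP_e0d433_co.F.Tab6

/-!
# MP_e0d433_co, F: a short superpermutation for every `n ≥ 8`
-/

set_option autoImplicit false

namespace Pool.Agent.Lib.MP_e0d433_co

open Finset

/-- The bound, with the number of left going words and of marked words. -/
theorem bound6 {n : ℕ} (hn : 8 ≤ n) :
    ∃ wd : List (Fin n), IsSuperperm n wd ∧
      60 * wd.length ≤ 60 * (n.factorial + (n - 1).factorial + (n - 2).factorial) +
        53 * (n - 3).factorial + 10 * (n - 4).factorial := by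
  obtain ⟨wd, c, v, h1, h2, h3, h4⟩ := B6.bound (n := n) hn left6.toFinset (by
    intro l hl hlen hg
    rw [List.mem_toFinset]
    unfold left6
    rw [List.mem_filter]
    rw [List.nodup_cons] at hl
    refine ⟨mem_en 5 l hl.2 (by simpa using hlen), ?_⟩
    simp only [decide_eq_true_eq]
    exact ⟨hg, hl.1⟩)
  refine ⟨wd, ?_, ?_⟩
  · intro p hp hlen
    apply h1
    rw [mem_perms]
    refine ⟨hp, ?_⟩
    apply Finset.eq_univ_of_card
    rw [List.toFinset_card_of_nodup hp, hlen, Fintype.card_fin]
  · have hc : left6.toFinset.card ≤ 48 := (List.toFinset_card_le _).trans (le_of_eq left6_length)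
    have h2' : c * 120 ≤ (n - 3).factorial * 48 := by
      have : (6 - 1).factorial = 120 := rfl
      rw [this] at h2
      exact h2.trans (Nat.mul_le_mul le_rfl hc)
    have h3' : v * 24 ≤ (n - 4).factorial := by
      have h5 : (6 - 2).factorial = 24 := rfl
      have h6 : B6.U.length = 1 := rfl
      rw [h5, h6, one_mul] at h3
      exact h3
    obtain ⟨k, rfl⟩ : ∃ k, n = k + 4 := ⟨n - 4, by omega⟩
    simp only [Nat.add_sub_cancel, show k + 4 - 1 = k + 3 by omega,
      show k + 4 - 2 = k + 2 by omega, show k + 4 - 3 = k + 1 by omega] at *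
    have e3 : (k + 1).factorial = (k + 1) * k.factorial := Nat.factorial_succ k
    rw [e3] at h2' ⊢
    have h7 : 2 * (k + 3) * v * 24 ≤ 2 * (k + 3) * k.factorial := by
      calc 2 * (k + 3) * v * 24 = 2 * (k + 3) * (v * 24) := by ring
        _ ≤ 2 * (k + 3) * k.factorial := Nat.mul_le_mul le_rfl h3'
    nlinarith [h4, h2', h7]

/-- For every `n ≥ 8` there is a superpermutation shorter than that of Egan and Williams. -/
theorem short {n : ℕ} (hn : 8 ≤ n) :
    ∃ wd : List (Fin n), IsSuperperm n wd ∧
      60 * wd.length ≤ 60 * (n.factorial + (n - 1).factorial + (n - 2).factorial) +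
        53 * (n - 3).factorial + 10 * (n - 4).factorial ∧
      wd.length + 3 < n.factorial + (n - 1).factorial + (n - 2).factorial + (n - 3).factorial +
        n := by
  obtain ⟨wd, h1, h2⟩ := bound6 hn
  refine ⟨wd, h1, h2, ?_⟩
  obtain ⟨k, rfl⟩ : ∃ k, n = k + 4 := ⟨n - 4, by omega⟩
  simp only [Nat.add_sub_cancel, show k + 4 - 3 = k + 1 by omega] at *
  have e3 : (k + 1).factorial = (k + 1) * k.factorial := Nat.factorial_succ k
  have h4 : 10 * k.factorial ≤ 7 * (k + 1).factorial := by
    rw [e3]
    nlinarith [Nat.factorial_pos k]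
  omega

end Pool.Agent.Lib.MP_e0d433_co
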