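import Pool.Agent.Lib.MP_e0d433_co.F.Base

/-!
# MP_e0d433_co, F: following the runs among passive letters
-/

set_option autoImplicit false

namespace Pool.Agent.Lib.MP_e0d433_co

open Finset

namespace Base

variable {m n : ℕ} [NeZero m] (B : Base m) (hmn : m + 2 ≤ n)

open scoped Classical in
/-- The representatives: words without `x` and `w` whose restriction to the letters `< m` is a
marked word and whose first two letters are `< m`. -/
noncomputable def VV : Finset (List (Fin n)) :=
  (perms (univ \ {(B.rule hmn).x, (B.rule hmn).w} : Finset (Fin n))).filter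
    (fun l => ∃ t ∈ B.U, ∃ l' : List (Fin n),
      l = Fin.castLE (by omega) t.1 :: Fin.castLE (by omega) t.2.1 :: l' ∧ pr m l' = t.2.2)

theorem rule_x : (B.rule hmn).x = ⟨n - 1, by omega⟩ := rfl

theorem rule_w : (B.rule hmn).w = ⟨n - 2, by omega⟩ := rfl

theorem rule_A : (B.rule hmn).A = act m n := rfl

theorem rule_info (C : List (Fin n)) : (B.rule hmn).info C = B.inf hmn C := rfl

section facts

variable {hmn}
variable {C : List (Fin n)}

theorem perm_act (hP : (B.rule hmn).x :: C ∈ perms (univ : Finset (Fin n))) :
    ∀ a ∈ act m n, a ∈ C :=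
  Rule.reach_A_tail (B.rule hmn) (B.rule hmn).x_notMem hP

theorem perm_nodup (hP : (B.rule hmn).x :: C ∈ perms (univ : Finset (Fin n))) : C.Nodup :=
  Rule.reach_nodup_tail hP

end facts

theorem split_first {D : List (Fin n)} (h : pr m D ≠ []) :
    ∃ (t : List (Fin n)) (c : Fin n) (r : List (Fin n)), D = t ++ c :: r ∧ c.val < m ∧
      (∀ a ∈ t, ¬ a.val < m) := by
  induction D with
  | nil => exact absurd rfl h
  | cons a D ih =>
    by_cases ha : a.val < m
    · exact ⟨[], a, D, rfl, ha, fun _ h => by simp at h⟩
    · rw [pr_cons_of_not ha] at h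
      obtain ⟨t, c, r, rfl, hc, ht⟩ := ih h
      refine ⟨a :: t, c, r, rfl, hc, ?_⟩
      intro b hb
      rcases List.mem_cons.1 hb with rfl | hb
      · exact ha
      · exact ht b hb

theorem split_last {D : List (Fin n)} (h : pr m D ≠ []) :
    ∃ (r : List (Fin n)) (c : Fin n) (t : List (Fin n)), D = r ++ c :: t ∧ c.val < m ∧
      (∀ a ∈ t, ¬ a.val < m) := by
  induction D using List.reverseRecOn with
  | nil => exact absurd rfl h
  | append_singleton D a ih =>
    by_cases ha : a.val < m
    · exact ⟨D, a, [], rfl, ha, fun _ h => by simp at h⟩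
    · have : pr m (D ++ [a]) = pr m D := by
        rw [pr_append, pr_cons_of_not ha]
        simp [pr]
      rw [this] at h
      obtain ⟨r, c, t, rfl, hc, ht⟩ := ih h
      refine ⟨r, c, t ++ [a], by simp, hc, ?_⟩
      intro b hb
      rcases List.mem_append.1 hb with hb | hb
      · exact ht b hb
      · rw [List.mem_singleton] at hb
        rw [hb]; exact ha

theorem pr_passive {t : List (Fin n)} (h : ∀ a ∈ t, ¬ a.val < m) : pr m t = [] := by
  induction t with
  | nil => rfl
  | cons a t ih =>
    rw [pr_cons_of_not (h a (by simp)), ih fun b hb => h b (List.mem_cons_of_mem _ hb)]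

/-- The mover goes right over passive letters. -/
theorem move_right {E : Finset (List (Fin n))} {C : List (Fin n)} {q : Fin n} :
    ∀ (t r : List (Fin n)), (∀ a ∈ t, ¬ a.val < m) →
    (B.rule hmn).Acc E C (q :: (t ++ r)) → B.inf hmn (q :: (t ++ r)) = (q, true) →
    (B.rule hmn).Acc E C (q :: (r ++ t)) := by
  intro t
  induction t with
  | nil =>
    intro r _ h _
    simpa using h
  | cons a t ih =>
    intro r ht h hi
    have ha := ht a (by simp)
    have hq := B.inf_lt hi
    have h1 := (B.rule hmn).acc_step (b := q) (c := a) (r := t ++ r) h (Or.inl hi)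
    have r1 : (a :: q :: (t ++ r)) ~r (q :: (t ++ (r ++ [a]))) := by
      have := Rule.reach_isRotated_append [a] (q :: (t ++ r))
      simpa using this
    have h2 := (B.rule hmn).acc_rot h1 r1
    have hi2 : B.inf hmn (q :: (t ++ (r ++ [a]))) = (q, true) := by
      rw [B.inf_isRotated (perm_nodup B h1.1) (perm_act B h1.1) r1]
      rw [B.inf_eq hq] at hi ⊢
      rw [← hi]
      congr 2
      rw [pr_cons_of_not ha, pr_cons_of_lt hq, List.cons_append, pr_cons_of_lt hq,
        pr_cons_of_not ha]
    have h3 := ih (r ++ [a]) (fun b hb => ht b (List.mem_cons_of_mem _ hb)) h2 hi2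
    simpa using h3

/-- The mover goes left over passive letters. -/
theorem move_left {E : Finset (List (Fin n))} {C : List (Fin n)} {q : Fin n} :
    ∀ (t r : List (Fin n)), (∀ a ∈ t, ¬ a.val < m) →
    (B.rule hmn).Acc E C (t ++ q :: r) → B.inf hmn (t ++ q :: r) = (q, false) →
    (B.rule hmn).Acc E C (q :: (t ++ r)) := by
  intro t
  induction t using List.reverseRecOn with
  | nil =>
    intro r _ h _
    simpa using h
  | append_singleton t a ih =>
    intro r ht h hi
    have ha := ht a (by simp)
    have hq := B.inf_lt hi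
    have r0 : (t ++ [a] ++ q :: r) ~r (a :: q :: (r ++ t)) := by
      have := Rule.reach_isRotated_append t (a :: q :: r)
      simpa using this
    have h0 := (B.rule hmn).acc_rot h r0
    have hi0 : B.inf hmn (a :: q :: (r ++ t)) = (q, false) := by
      rw [B.inf_isRotated (perm_nodup B h.1) (perm_act B h.1) r0, hi]
    have h1 := (B.rule hmn).acc_step (b := a) (c := q) (r := r ++ t) h0 (Or.inr hi0)
    have r1 : (q :: a :: (r ++ t)) ~r (t ++ q :: (a :: r)) := by
      have := Rule.reach_isRotated_append (q :: a :: r) t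
      simpa using this
    have h2 := (B.rule hmn).acc_rot h1 r1
    have hi2 : B.inf hmn (t ++ q :: (a :: r)) = (q, false) := by
      rw [B.inf_isRotated (perm_nodup B h1.1) (perm_act B h1.1) r1]
      rw [B.inf_eq hq] at hi0 ⊢
      rw [← hi0]
      congr 2
      rw [pr_cons_of_not ha, pr_cons_of_lt hq, pr_cons_of_lt hq, pr_cons_of_not ha]
    have h3 := ih (a :: r) (fun b hb => ht b (List.mem_append_left _ hb)) h2 hi2
    have r3 : (q :: (t ++ (a :: r))) = q :: (t ++ [a] ++ r) := by simp
    rw [r3] at h3
    exact h3

/-- From every main word one reaches a representative. -/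
theorem reach {E : Finset (List (Fin n))} {C : List (Fin n)}
    (hP : (B.rule hmn).x :: C ∈ perms (univ : Finset (Fin n))) (hm : (B.rule hmn).Main C) :
    ∃ l₁ l₂ : List (Fin n), l₁ ++ l₂ ∈ B.VV hmn ∧
      (B.rule hmn).Out (l₁ ++ (B.rule hmn).w :: l₂) ∧
      (B.rule hmn).Acc E C (l₁ ++ (B.rule hmn).w :: l₂) := by
  suffices h : ∀ (k : ℕ) (D : List (Fin n)), B.rk (anch (pr m D)) = k →
      (B.rule hmn).Acc E C D → ∃ l₁ l₂ : List (Fin n), l₁ ++ l₂ ∈ B.VV hmn ∧
      (B.rule hmn).Out (l₁ ++ (B.rule hmn).w :: l₂) ∧
      (B.rule hmn).Acc E C (l₁ ++ (B.rule hmn).w :: l₂) from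
    h _ C rfl ((B.rule hmn).acc_refl E hP hm)
  intro k
  induction k using Nat.strong_induction_on with
  | _ k ih =>
    intro D hk hD
    have hDn := perm_nodup B hD.1
    have hDA := perm_act B hD.1
    have htwo := B.two_le
    -- it is enough to find the next pair of active letters
    have main : ∀ (b c : Fin n) (r : List (Fin n)) (hb : b.val < m) (hc : c.val < m),
        (B.rule hmn).Acc E C (b :: c :: r) → pr m D ~r pr m (b :: c :: r) →
        (B.inf hmn (b :: c :: r) = (b, true) ∨ B.inf hmn (b :: c :: r) = (c, false)) →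
        ∃ l₁ l₂ : List (Fin n), l₁ ++ l₂ ∈ B.VV hmn ∧
          (B.rule hmn).Out (l₁ ++ (B.rule hmn).w :: l₂) ∧
          (B.rule hmn).Acc E C (l₁ ++ (B.rule hmn).w :: l₂) := by
      intro b c r hb hc hacc hrot hi
      have hn' := perm_nodup B hacc.1
      have hA' := perm_act B hacc.1
      have hlen := pr_length (m := m) hn' (exists_of_act hmn hA')
      have hnd := pr_nodup (m := m) hn'
      have hi' := hi
      rw [B.inf_eq hb, B.inf_eq hc] at hi'
      rw [pr_cons_of_lt hb, pr_cons_of_lt hc] at hi' hlen hnd
      have hkk : B.rk (anch (pr m (b :: c :: r))) = k := by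
        rw [← hk, anch_isRotated (pr_nodup hDn) (zero_mem hmn hDA) hrot]
      rw [pr_cons_of_lt hb, pr_cons_of_lt hc] at hkk
      rcases B.desc _ _ _ hnd hlen hi' with ⟨hU, hg⟩ | hlt
      · -- a marked word
        have hw : (B.rule hmn).w ∈ r := by
          have h1 : (B.rule hmn).w ∈ (B.rule hmn).x :: b :: c :: r :=
            Rule.reach_mem hacc.1 _
          rcases List.mem_cons.1 h1 with h1 | h1
          · exact absurd h1.symm (B.rule hmn).x_ne_w
          rcases List.mem_cons.1 h1 with h1 | h1
          · exact absurd (by rw [h1]; exact mem_act.2 hb) (B.rule hmn).w_notMem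
          rcases List.mem_cons.1 h1 with h1 | h1
          · exact absurd (by rw [h1]; exact mem_act.2 hc) (B.rule hmn).w_notMem
          · exact h1
        obtain ⟨r₁, r₂, hr⟩ := List.append_of_mem hw
        have hwm : ¬ ((B.rule hmn).w).val < m := fun h =>
          (B.rule hmn).w_notMem (mem_act.2 h)
        refine ⟨b :: c :: r₁, r₂, ?_, ?_, ?_⟩
        · classical
          unfold VV
          rw [mem_filter]
          refine ⟨?_, _, hU, r₁ ++ r₂, ?_, ?_⟩
          · have h1 : ({(B.rule hmn).x, (B.rule hmn).w} : Finset (Fin n)) =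
                ([(B.rule hmn).x, (B.rule hmn).w] : List (Fin n)).toFinset := by simp
            rw [h1]
            apply cnt2F_mem_perms_of_perm hacc.1
            rw [hr]
            simp only [List.cons_append, List.nil_append]
            apply List.Perm.cons
            have : (b :: c :: (r₁ ++ (B.rule hmn).w :: r₂)) =
              (b :: c :: r₁) ++ (B.rule hmn).w :: r₂ := by simp
            rw [this]
            exact List.perm_middle
          · rfl
          · simp only
            rw [hr, pr_append, pr_append, pr_cons_of_not hwm]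
        · refine ⟨b, c, r₁ ++ (B.rule hmn).w :: r₂, by simp, Or.inl ?_⟩
          have e : b :: c :: r₁ ++ (B.rule hmn).w :: r₂ = b :: c :: r := by rw [hr]; simp
          rw [e, rule_info, B.inf_eq hb, pr_cons_of_lt hb, pr_cons_of_lt hc]
          exact hg
        · have e : b :: c :: r₁ ++ (B.rule hmn).w :: r₂ = b :: c :: r := by rw [hr]; simp
          rw [e]
          exact hacc
      · have hstep := (B.rule hmn).acc_step hacc hi
        refine ih _ ?_ (c :: b :: r) rfl hstep
        rw [pr_cons_of_lt hc, pr_cons_of_lt hb]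
        omega
    -- find the mover
    rcases hinf : B.inf hmn D with ⟨q, d⟩
    have hq := B.inf_lt hinf
    have hqD : q ∈ D := hDA q (mem_act.2 hq)
    obtain ⟨D₁, D₂, hD12⟩ := List.append_of_mem hqD
    have r1 : D ~r (q :: (D₂ ++ D₁)) := by
      rw [hD12]
      have := Rule.reach_isRotated_append D₁ (q :: D₂)
      simpa using this
    have h1 := (B.rule hmn).acc_rot hD r1
    have hi1 : B.inf hmn (q :: (D₂ ++ D₁)) = (q, d) := by
      rw [B.inf_isRotated hDn hDA r1, hinf]
    have hlen1 := pr_length (m := m) (perm_nodup B h1.1) (exists_of_act hmn (perm_act B h1.1))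
    have hne : pr m (D₂ ++ D₁) ≠ [] := by
      intro h
      rw [pr_cons_of_lt hq, h] at hlen1
      simp at hlen1
      omega
    cases d with
    | true =>
      obtain ⟨t, c, r, htc, hc, ht⟩ := split_first hne
      rw [htc] at h1 hi1 r1
      have h2 := B.move_right hmn t (c :: r) ht h1 hi1
      have r2 : (q :: (t ++ c :: r)).Perm (q :: (c :: r ++ t)) :=
        List.Perm.cons _ List.perm_append_comm
      have hpr : pr m (q :: (c :: r ++ t)) = pr m (q :: (t ++ c :: r)) := by
        rw [pr_cons_of_lt hq, pr_cons_of_lt hq, pr_append, pr_append, pr_passive ht]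
        simp
      have h2' : (B.rule hmn).Acc E C (q :: c :: (r ++ t)) := by simpa using h2
      refine main q c (r ++ t) hq hc h2' ?_ (Or.inl ?_)
      · have e : q :: c :: (r ++ t) = q :: (c :: r ++ t) := by simp
        rw [e, hpr]
        exact pr_isRotated r1
      · have e : q :: c :: (r ++ t) = q :: (c :: r ++ t) := by simp
        rw [B.inf_eq hq] at hi1 ⊢
        rw [e, hpr]
        exact hi1
    | false =>
      obtain ⟨r, c, t, htc, hc, ht⟩ := split_last hne
      rw [htc] at h1 hi1 r1
      have r2 : (q :: (r ++ c :: t)) ~r (t ++ q :: (r ++ [c])) := by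
        have := Rule.reach_isRotated_append (q :: (r ++ [c])) t
        simpa using this
      have h2 := (B.rule hmn).acc_rot h1 r2
      have hi2 : B.inf hmn (t ++ q :: (r ++ [c])) = (q, false) := by
        rw [B.inf_isRotated (perm_nodup B h1.1) (perm_act B h1.1) r2, hi1]
      have h3 := B.move_left hmn t (r ++ [c]) ht h2 hi2
      have r3 : (q :: (t ++ (r ++ [c]))) ~r (c :: q :: (t ++ r)) := by
        have := Rule.reach_isRotated_append (q :: (t ++ r)) [c]
        simpa using this
      have h4 := (B.rule hmn).acc_rot h3 r3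
      have hpr : pr m (q :: (t ++ (r ++ [c]))) = pr m (q :: (r ++ c :: t)) := by
        have e : r ++ c :: t = r ++ [c] ++ t := by simp
        rw [e, pr_cons_of_lt hq, pr_cons_of_lt hq, pr_append, pr_append (r ++ [c]), pr_passive ht]
        simp
      refine main c q (t ++ r) hc hq h4 ?_ (Or.inr ?_)
      · refine (pr_isRotated r1).trans ?_
        rw [← hpr]
        exact pr_isRotated r3
      · rw [B.inf_isRotated (perm_nodup B h3.1) (perm_act B h3.1) r3]
        rw [B.inf_eq hq] at hi1 ⊢
        rw [hpr]
        exact hi1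

end Base

end Pool.Agent.Lib.MP_e0d433_co
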