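import Pool.Agent.Lib.MP_e0d433_co.F.Defs

/-!
# MP_e0d433_co, F: the successor map of a rule is a bijection

Adapted from `SysStep.lean`.
-/

set_option autoImplicit false

namespace Pool.Agent.Lib.MP_e0d433_co

open Finset

namespace Rule

variable {α : Type*} [DecidableEq α] (S : Rule α)

private theorem StepF_mode_cases (C : List α) :
    (S.mode C = 3 ∧ S.Out C) ∨ (S.mode C = 1 ∧ ¬ S.Out C ∧ S.Wasted C) ∨
      (S.mode C = 2 ∧ ¬ S.Out C ∧ ¬ S.Wasted C) := by
  unfold mode
  by_cases h : S.Out C
  · simp [h]
  · by_cases h' : S.Wasted C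
    · simp [h, h']
    · simp [h, h']

theorem md_pos (P : List α) : 1 ≤ S.md P := by
  unfold md
  split_ifs
  · rcases S.StepF_mode_cases P.tail with h | h | h <;> omega
  · exact le_rfl

theorem md_le (P : List α) : S.md P ≤ 3 := by
  unfold md
  split_ifs
  · rcases S.StepF_mode_cases P.tail with h | h | h <;> omega
  · omega

theorem drop_md_prefix (P : List α) : P.drop (S.md P) <+: S.step P :=
  List.prefix_append _ _

private theorem StepF_step_perm (P : List α) : (S.step P).Perm P := by
  unfold step
  have h1 : (P.drop (S.md P) ++ (P.take (S.md P)).reverse).Perm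
      (P.drop (S.md P) ++ P.take (S.md P)) :=
    List.Perm.append_left _ (List.reverse_perm _)
  have h2 : (P.drop (S.md P) ++ P.take (S.md P)).Perm
      (P.take (S.md P) ++ P.drop (S.md P)) := List.perm_append_comm
  rw [List.take_append_drop] at h2
  exact h1.trans h2

/-- The word written before the final `x`. -/
private noncomputable def StepF_f (C : List α) : List α :=
  C.drop (S.mode C - 1) ++ (C.take (S.mode C - 1)).reverse

private theorem StepF_step_ne (a : α) (C : List α) (h : a ≠ S.x) :
    S.step (a :: C) = C ++ [a] := by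
  have : S.md (a :: C) = 1 := by simp [md, h]
  simp [step, this]

private theorem StepF_step_x (C : List α) :
    S.step (S.x :: C) = S.StepF_f C ++ [S.x] := by
  have : S.md (S.x :: C) = (S.mode C - 1) + 1 := by
    have : S.md (S.x :: C) = S.mode C := by simp [md]
    rcases S.StepF_mode_cases C with h | h | h <;> omega
  simp only [step, this, List.drop_succ_cons, List.take_succ_cons, List.reverse_cons, StepF_f,
    List.append_assoc]

private theorem StepF_rot (a : α) (l : List α) (h : (a :: l).Nodup)
    (hA : ∀ b ∈ S.A, b ∈ a :: l) : S.info (l ++ [a]) = S.info (a :: l) := by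
  have := S.rot (a :: l) h hA
  simpa using this

private theorem StepF_case32 {C C' : List α} (hC : C.Nodup) (hA : ∀ a ∈ S.A, a ∈ C)
    (h3 : S.mode C = 3 ∧ S.Out C) (h2 : S.mode C' = 2 ∧ ¬ S.Out C' ∧ ¬ S.Wasted C')
    (hne' : C' ≠ []) (h : S.StepF_f C = S.StepF_f C') : False := by
  obtain ⟨hm, b, c, l, rfl, hinf⟩ := h3
  obtain ⟨hm', hO, hW⟩ := h2
  obtain ⟨b', l', rfl⟩ := List.exists_cons_of_ne_nil hne'
  simp only [StepF_f, hm, hm'] at h
  have h' : (l ++ [c]) ++ [b] = l' ++ [b'] := by simpa using h
  obtain ⟨h1, h2⟩ := List.append_inj' h' rfl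
  simp only [List.cons.injEq, and_true] at h2
  subst h2
  subst h1
  have hn : (c :: b :: l).Nodup := by
    have : (c :: b :: l).Perm (b :: c :: l) := List.Perm.swap _ _ _
    exact this.nodup_iff.2 hC
  have hA' : ∀ a ∈ S.A, a ∈ c :: b :: l := by
    intro a ha
    have := hA a ha
    simp only [List.mem_cons] at this ⊢
    tauto
  have hs := S.switch b c l hC hA hinf
  have hr := S.StepF_rot c (b :: l) hn hA'
  simp only [List.cons_append] at hr
  rw [← hr] at hs
  rcases hs with hs | hs
  · apply hO
    rcases l with _ | ⟨d, l⟩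
    · exact ⟨b, c, [], rfl, Or.inl hs⟩
    · exact ⟨b, d, l ++ [c], rfl, Or.inl hs⟩
  · apply hW
    refine ⟨by rw [hs], Or.inr ?_⟩
    rw [hs]
    have : b :: (l ++ [c]) = (b :: l) ++ [c] := rfl
    rw [this, List.getLast?_append]
    simp

private theorem StepF_case31 {C C' : List α} (hC : C.Nodup) (hA : ∀ a ∈ S.A, a ∈ C)
    (hw : S.w ∈ C)
    (h3 : S.mode C = 3 ∧ S.Out C) (h1 : S.mode C' = 1 ∧ ¬ S.Out C' ∧ S.Wasted C')
    (h : S.StepF_f C = S.StepF_f C') : False := by
  obtain ⟨hm, b, c, l, rfl, hinf⟩ := h3
  obtain ⟨hm', hO, hW, hW'⟩ := h1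
  simp only [StepF_f, hm, hm'] at h
  have h' : C' = l ++ [c, b] := by simpa using h.symm
  subst h'
  have hn : (c :: b :: l).Nodup := by
    have : (c :: b :: l).Perm (b :: c :: l) := List.Perm.swap _ _ _
    exact this.nodup_iff.2 hC
  have hA' : ∀ a ∈ S.A, a ∈ c :: b :: l := by
    intro a ha
    have := hA a ha
    simp only [List.mem_cons] at this ⊢
    tauto
  have hn2 : (b :: (l ++ [c])).Nodup := by
    have : (b :: (l ++ [c])).Perm (b :: c :: l) :=
      List.Perm.cons _ (List.perm_append_singleton c l)
    exact this.nodup_iff.2 hC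
  have hA2 : ∀ a ∈ S.A, a ∈ b :: (l ++ [c]) := by
    intro a ha
    have := hA a ha
    simp only [List.mem_cons, List.mem_append] at this ⊢
    tauto
  have hs := S.switch b c l hC hA hinf
  have hr := S.StepF_rot c (b :: l) hn hA'
  have hr2 := S.StepF_rot b (l ++ [c]) hn2 hA2
  simp only [List.cons_append] at hr
  have hinfo : S.info (l ++ [c, b]) = S.info (c :: b :: l) := by
    rw [← hr, ← hr2]
    simp
  rw [← hinfo] at hs
  rcases hs with hs | hs
  · rw [hs] at hW
    exact absurd hW (by simp)
  · rw [hs] at hW'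
    have hbc : b ≠ c := by
      intro e
      subst e
      simp at hC
    rcases hW' with hW' | hW'
    · rcases l with _ | ⟨d, l⟩
      · have hsub : S.A ⊆ {b, c} := by
          intro a ha
          have := hA a ha
          simp only [List.mem_cons, List.not_mem_nil, or_false] at this
          simpa using this
        have hss : S.A ⊂ {b, c} := by
          refine ⟨hsub, fun h => ?_⟩
          simp only [List.mem_cons, List.not_mem_nil, or_false] at hw
          have : S.w ∈ ({b, c} : Finset α) := by simpa using hw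
          exact S.w_notMem (h this)
        have h1 := Finset.card_lt_card hss
        have h2 := S.two_le
        have h3 : ({b, c} : Finset α).card ≤ 2 := Finset.card_le_two
        omega
      · simp only [List.cons_append, List.head?_cons, Option.some.injEq] at hW'
        subst hW'
        simp at hC
    · rw [List.getLast?_append] at hW'
      simp at hW'
      exact hbc hW'

private theorem StepF_case21 {C C' : List α} (hC : C.Nodup) (hA : ∀ a ∈ S.A, a ∈ C)
    (hne : C ≠ [])
    (h2 : S.mode C = 2 ∧ ¬ S.Out C ∧ ¬ S.Wasted C) (h1 : S.mode C' = 1 ∧ ¬ S.Out C' ∧ S.Wasted C')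
    (h : S.StepF_f C = S.StepF_f C') : False := by
  obtain ⟨hm, hO, hW⟩ := h2
  obtain ⟨hm', hO', hW1, hW2⟩ := h1
  obtain ⟨b, l, rfl⟩ := List.exists_cons_of_ne_nil hne
  simp only [StepF_f, hm, hm'] at h
  have h' : C' = l ++ [b] := by simpa using h.symm
  subst h'
  have hr := S.StepF_rot b l hC hA
  rw [hr] at hW1 hW2
  rcases hW2 with hW2 | hW2
  · rcases l with _ | ⟨c, l⟩
    · apply hW
      refine ⟨hW1, Or.inl ?_⟩
      simpa using hW2
    · apply hO
      refine ⟨b, c, l, rfl, Or.inr ?_⟩
      simp only [List.cons_append, List.head?_cons, Option.some.injEq] at hW2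
      exact Prod.ext hW2.symm hW1
  · apply hW
    refine ⟨hW1, Or.inl ?_⟩
    rw [List.getLast?_append] at hW2
    simpa using hW2

private theorem StepF_f_inj {C C' : List α} (hC : C.Nodup) (hA : ∀ a ∈ S.A, a ∈ C)
    (hC' : C'.Nodup) (hA' : ∀ a ∈ S.A, a ∈ C') (hw : S.w ∈ C) (hw' : S.w ∈ C')
    (h : S.StepF_f C = S.StepF_f C') : C = C' := by
  have hne : C ≠ [] := List.ne_nil_of_mem hw
  have hne' : C' ≠ [] := List.ne_nil_of_mem hw'
  rcases S.StepF_mode_cases C with h3 | h1 | h2
  · rcases S.StepF_mode_cases C' with h3' | h1' | h2'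
    · obtain ⟨hm, b, c, l, rfl, hinf⟩ := h3
      obtain ⟨hm', b', c', l', rfl, hinf'⟩ := h3'
      simp only [StepF_f, hm, hm'] at h
      have h' : l ++ [c, b] = l' ++ [c', b'] := by simpa using h
      obtain ⟨e1, e2⟩ := List.append_inj' h' rfl
      simp only [List.cons.injEq, and_true] at e2
      rw [e1, e2.1, e2.2]
    · exact (S.StepF_case31 hC hA hw h3 h1' h).elim
    · exact (S.StepF_case32 hC hA h3 h2' hne' h).elim
  · rcases S.StepF_mode_cases C' with h3' | h1' | h2'
    · exact (S.StepF_case31 hC' hA' hw' h3' h1 h.symm).elim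
    · simp only [StepF_f, h1.1, h1'.1] at h
      simpa using h
    · exact (S.StepF_case21 hC' hA' hne' h2' h1 h.symm).elim
  · rcases S.StepF_mode_cases C' with h3' | h1' | h2'
    · exact (S.StepF_case32 hC' hA' h3' h2 hne h.symm).elim
    · exact (S.StepF_case21 hC hA hne h2 h1' h).elim
    · obtain ⟨b, l, rfl⟩ := List.exists_cons_of_ne_nil hne
      obtain ⟨b', l', rfl⟩ := List.exists_cons_of_ne_nil hne'
      simp only [StepF_f, h2.1, h2'.1] at h
      have h' : l ++ [b] = l' ++ [b'] := by simpa using h
      obtain ⟨e1, e2⟩ := List.append_inj' h' rfl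
      simp only [List.cons.injEq, and_true] at e2
      rw [e1, e2]

theorem bijOn_step [Fintype α] :
    Set.BijOn S.step (perms (univ : Finset α)) (perms (univ : Finset α)) := by
  have hmaps : Set.MapsTo S.step (perms (univ : Finset α) : Set (List α))
      (perms (univ : Finset α)) := by
    intro P hP
    exact perm_mem_perms hP (S.StepF_step_perm P)
  have hinj : Set.InjOn S.step (perms (univ : Finset α) : Set (List α)) := by
    intro P hP P' hP' h
    have hn : P.Nodup := nodup_of_mem_perms hP
    have hn' : P'.Nodup := nodup_of_mem_perms hP'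
    have hall : ∀ a, a ∈ P := fun a => (mem_iff_of_mem_perms hP a).2 (mem_univ a)
    have hall' : ∀ a, a ∈ P' := fun a => (mem_iff_of_mem_perms hP' a).2 (mem_univ a)
    obtain ⟨a, C, rfl⟩ := List.exists_cons_of_ne_nil (List.ne_nil_of_mem (hall S.x))
    obtain ⟨a', C', rfl⟩ := List.exists_cons_of_ne_nil (List.ne_nil_of_mem (hall' S.x))
    by_cases ha : a = S.x
    · by_cases ha' : a' = S.x
      · subst ha
        subst ha'
        rw [S.StepF_step_x, S.StepF_step_x] at h
        obtain ⟨e1, -⟩ := List.append_inj' h rfl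
        have hmem : ∀ b, b ≠ S.x → b ∈ C := fun b hb => by
          have := hall b
          simp only [List.mem_cons] at this
          tauto
        have hmem' : ∀ b, b ≠ S.x → b ∈ C' := fun b hb => by
          have := hall' b
          simp only [List.mem_cons] at this
          tauto
        have hAx : ∀ b ∈ S.A, b ≠ S.x := fun b hb e => S.x_notMem (e ▸ hb)
        rw [S.StepF_f_inj (List.nodup_cons.1 hn).2 (fun b hb => hmem b (hAx b hb))
          (List.nodup_cons.1 hn').2 (fun b hb => hmem' b (hAx b hb))
          (hmem _ S.x_ne_w.symm) (hmem' _ S.x_ne_w.symm) e1]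
      · subst ha
        rw [S.StepF_step_x, S.StepF_step_ne _ _ ha'] at h
        obtain ⟨-, e2⟩ := List.append_inj' h rfl
        simp only [List.cons.injEq, and_true] at e2
        exact absurd e2.symm ha'
    · by_cases ha' : a' = S.x
      · subst ha'
        rw [S.StepF_step_x, S.StepF_step_ne _ _ ha] at h
        obtain ⟨-, e2⟩ := List.append_inj' h rfl
        simp only [List.cons.injEq, and_true] at e2
        exact absurd e2 ha
      · rw [S.StepF_step_ne _ _ ha, S.StepF_step_ne _ _ ha'] at h
        obtain ⟨e1, e2⟩ := List.append_inj' h rfl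
        simp only [List.cons.injEq, and_true] at e2
        rw [e1, e2]
  exact ⟨hmaps, hinj, Finset.surjOn_of_injOn_of_card_le S.step hmaps hinj le_rfl⟩

end Rule

end Pool.Agent.Lib.MP_e0d433_co
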